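import Mathlib

/-!
Definitions for Frankfurt's spaces `E^p(μ)` on the unit disc.
-/

open MeasureTheory Filter Topology
open scoped ENNReal

namespace Pool.Agent.Helper83_Frankfurt

/-- `ν` is an admissible radial measure: a finite positive Borel measure carried by `[0,1]`, with
`ν({0}) = 0` and `ν([τ,1]) > 0` for every `0 ≤ τ < 1`. -/
structure IsRadialMeasure (ν : Measure ℝ) : Prop where
  finite : ν Set.univ < ∞
  support : ν (Set.Icc 0 1)ᶜ = 0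
  zero : ν {0} = 0
  pos : ∀ τ : ℝ, 0 ≤ τ → τ < 1 → 0 < ν (Set.Icc τ 1)

/-- The symmetric measure `dμ(τ e^{iθ}) = (2π)⁻¹ dν(τ) dθ` on the (closed) unit disc: the image of
`(2π)⁻¹ (ν × dθ)`, `θ ∈ (0, 2π]`, under `(τ, θ) ↦ τ e^{iθ}`. -/
noncomputable def symMeasure (ν : Measure ℝ) : Measure ℂ :=
  ENNReal.ofReal (2 * Real.pi)⁻¹ •
    (ν.prod (volume.restrict (Set.Ioc 0 (2 * Real.pi)))).map
      (fun x : ℝ × ℝ => (x.1 : ℂ) * Complex.exp ((x.2 : ℂ) * Complex.I))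

/-- `M_p(τ; f; μ) = (∫ |f(τ w)|^p dμ(w))^{1/p}`. -/
noncomputable def Mp (p : ℝ) (μ : Measure ℂ) (f : ℂ → ℂ) (τ : ℝ) : ℝ≥0∞ :=
  (∫⁻ w, ‖f ((τ : ℂ) * w)‖ₑ ^ p ∂μ) ^ (1 / p)

/-- `‖f‖_{p,μ} = sup_{0 ≤ τ < 1} M_p(τ; f; μ)`, with values in `[0, ∞]`. -/
noncomputable def eNorm (p : ℝ) (μ : Measure ℂ) (f : ℂ → ℂ) : ℝ≥0∞ :=
  ⨆ τ ∈ Set.Ico (0 : ℝ) 1, Mp p μ f τ

/-- `f ∈ E^p(μ)`: `f` is analytic in the open unit disc and `‖f‖_{p,μ} < ∞`. -/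
def MemE (p : ℝ) (μ : Measure ℂ) (f : ℂ → ℂ) : Prop :=
  DifferentiableOn ℂ f (Metric.ball 0 1) ∧ eNorm p μ f < ∞

/-- `f` is weakly invertible in `E^p(μ)`: `f ∈ E^p(μ)` and there are polynomials `q_n` with
`‖q_n f - 1‖_{p,μ} → 0`. -/
def WeaklyInvertible (p : ℝ) (μ : Measure ℂ) (f : ℂ → ℂ) : Prop :=
  MemE p μ f ∧ ∃ q : ℕ → Polynomial ℂ,
    Tendsto (fun n => eNorm p μ (fun z => (q n).eval z * f z - 1)) atTop (𝓝 0)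

end Pool.Agent.Helper83_Frankfurt
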