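import Mathlib

/-!
The shape polynomial `b` and the `real product` lemma.
-/

open MeasureTheory Metric Real Set Filter Topology Polynomial

namespace Pool.Agent.Helper83_Frankfurt

/-- multiplication by `Re X` on the unit circle -/
theorem exists_mul_re (P : ℂ[X]) : ∃ P' : ℂ[X], ∀ x : ℂ, ‖x‖ = 1 →
    (P'.eval x).re = x.re * (P.eval x).re := by
  refine ⟨C (((P.coeff 0).re : ℂ)) * X + C (((1/2 : ℝ)) : ℂ) * (X ^ 2 * P.divX + P.divX), ?_⟩
  intro x hx
  have hP : P.eval x = x * P.divX.eval x + P.coeff 0 := by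
    have h := congrArg (eval x) P.divX_mul_X_add
    rw [eval_add, eval_mul, eval_X, eval_C] at h
    rw [← h]; ring
  have hx2 : x.re * x.re + x.im * x.im = 1 := by
    rw [← Complex.normSq_apply, Complex.normSq_eq_norm_sq, hx]; norm_num
  rw [hP]
  set y := P.divX.eval x with hy
  simp only [eval_add, eval_mul, eval_C, eval_X, eval_pow, ← hy]
  simp only [Complex.add_re, Complex.add_im, Complex.mul_re, pow_two, Complex.mul_im,
    Complex.ofReal_re, Complex.ofReal_im]
  have e : y.re = (x.re * x.re + x.im * x.im) * y.re := by rw [hx2]; ring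
  linear_combination (1/2) * e

theorem exists_pow_re (n : ℕ) : ∃ P : ℂ[X], ∀ x : ℂ, ‖x‖ = 1 → (P.eval x).re = x.re ^ n := by
  induction n with
  | zero => exact ⟨1, by simp⟩
  | succ n ih =>
    obtain ⟨P, hP⟩ := ih
    obtain ⟨P', hP'⟩ := exists_mul_re P
    exact ⟨P', fun x hx => by rw [hP' x hx, hP x hx, pow_succ]; ring⟩

theorem exists_eval_re (R : ℝ[X]) : ∃ P : ℂ[X], ∀ x : ℂ, ‖x‖ = 1 →
    (P.eval x).re = R.eval x.re := by
  induction R using Polynomial.induction_on' with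
  | add p q hp hq =>
    obtain ⟨P, hP⟩ := hp
    obtain ⟨Q, hQ⟩ := hq
    exact ⟨P + Q, fun x hx => by simp [hP x hx, hQ x hx]⟩
  | monomial n a =>
    obtain ⟨P, hP⟩ := exists_pow_re n
    refine ⟨C ((a : ℂ)) * P, fun x hx => ?_⟩
    rw [eval_mul, eval_C, Complex.re_ofReal_mul, hP x hx, eval_monomial]

theorem re_eval_zero_eq (Q : ℂ[X]) :
    (Q.eval 0).re = circleAverage (fun z => (Q.eval z).re) 0 1 := by
  have h : circleAverage (fun z => Q.eval z) 0 1 = Q.eval 0 := by
    have := (Q.differentiable.differentiableOn (s := closure (ball (0:ℂ) |1|))).diffContOnCl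
      |>.circleAverage
    simpa using this
  have h2 := Complex.reCLM.circleAverage_comp_comm (f := fun z => Q.eval z) (c := 0) (R := 1)
    (Q.continuous.continuousOn.circleIntegrable zero_le_one)
  rw [h] at h2
  simpa [Function.comp_def] using h2.symm

/-- average comparison: `Re Q ≥ c` on the unit circle implies `Re Q(0) ≥ c` -/
theorem le_re_eval_zero (Q : ℂ[X]) (c : ℝ) (h : ∀ x : ℂ, ‖x‖ = 1 → c ≤ (Q.eval x).re) :
    c ≤ (Q.eval 0).re := by
  rw [re_eval_zero_eq]
  rw [← circleAverage_const c (0:ℂ) 1]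
  apply circleAverage_mono
  · exact (continuous_const.continuousOn).circleIntegrable zero_le_one
  · exact ((Complex.continuous_re.comp Q.continuous).continuousOn).circleIntegrable zero_le_one
  · intro x hx
    apply h
    simpa using hx

/-- The shape polynomial. -/
theorem exists_shape {η : ℝ} (hη : 0 < η) (hη1 : η ≤ 1) : ∃ b : ℂ[X], b.eval 0 = 0 ∧
    (∀ x : ℂ, ‖x‖ = 1 → (b.eval x).re ≤ 1 + η) ∧
    (∀ x : ℂ, ‖x‖ = 1 → -4 ≤ (b.eval x).re) ∧
    (∀ x : ℂ, ‖x‖ = 1 → 1/2 ≤ x.re → 1 - η ≤ (b.eval x).re) ∧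
    (b.eval (-1)).re ≤ -(1/2) := by
  set η' : ℝ := η / 16 with hη'
  have hη'0 : 0 < η' := by positivity
  have hη'1 : η' ≤ 1/16 := by rw [hη']; linarith
  obtain ⟨R, hR⟩ := exists_polynomial_near_of_continuousOn (-1) 1 (fun y => max 0 (1/2 - y))
    (by fun_prop) η' hη'0
  obtain ⟨P₀, hP₀⟩ := exists_eval_re R
  -- make the constant term real
  set P : ℂ[X] := P₀ - C (((P₀.eval 0).im : ℂ) * Complex.I) with hPdef
  have hP : ∀ x : ℂ, ‖x‖ = 1 → (P.eval x).re = R.eval x.re := by
    intro x hx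
    rw [hPdef, eval_sub, eval_C, Complex.sub_re, Complex.re_ofReal_mul, hP₀ x hx]
    simp
  have hPim : (P.eval 0).im = 0 := by
    rw [hPdef, eval_sub, eval_C, Complex.sub_im, Complex.im_ofReal_mul]
    simp
  have hxm : ∀ x : ℂ, ‖x‖ = 1 → x.re ∈ Set.Icc (-1:ℝ) 1 := by
    intro x hx
    have := Complex.abs_re_le_norm x
    rw [hx] at this
    exact abs_le.1 this
  set μ : ℝ := (P.eval 0).re with hμ
  have hμc : P.eval 0 = (μ : ℂ) := Complex.ext (by simp [hμ]) (by simpa using hPim)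
  have hnear : ∀ x : ℂ, ‖x‖ = 1 → |(P.eval x).re - max 0 (1/2 - x.re)| < η' := by
    intro x hx
    rw [hP x hx]
    exact hR x.re (hxm x hx)
  have hμlow : 7/16 ≤ μ := by
    have := le_re_eval_zero (P + X) (7/16) (by
      intro x hx
      have h1 := abs_lt.1 (hnear x hx)
      have h2 := le_max_right 0 (1/2 - x.re)
      simp only [eval_add, eval_X, Complex.add_re]
      linarith)
    simpa using this
  have hμup : μ ≤ 3/4 := by
    have := le_re_eval_zero (C (11/16 : ℂ) - C (3/4 : ℂ) * X + C (1/16 : ℂ) * X ^ 2 - P) (-(1/16)) (by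
      intro x hx
      have h1 := abs_lt.1 (hnear x hx)
      have hx1 := hxm x hx
      have hx2 : x.re * x.re + x.im * x.im = 1 := by
        rw [← Complex.normSq_apply, Complex.normSq_eq_norm_sq, hx]; norm_num
      have hval : (eval x (C (11/16 : ℂ) - C (3/4 : ℂ) * X + C (1/16 : ℂ) * X ^ 2)).re =
          5/8 - 3/4 * x.re + x.re * x.re / 8 := by
        rw [show (11/16 : ℂ) = ((11/16 : ℝ) : ℂ) by norm_num,
          show (3/4 : ℂ) = ((3/4 : ℝ) : ℂ) by norm_num,
          show (1/16 : ℂ) = ((1/16 : ℝ) : ℂ) by norm_num]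
        simp only [eval_add, eval_sub, eval_mul, eval_C, eval_X, Complex.add_re,
          Complex.sub_re, Complex.ofReal_re, Complex.ofReal_im, pow_two, Complex.mul_re]
        linarith
      have hmaj : max 0 (1/2 - x.re) ≤ 5/8 - 3/4 * x.re + x.re * x.re / 8 := by
        apply max_le
        · nlinarith [hx1.1, hx1.2]
        · nlinarith [hx1.1, hx1.2, sq_nonneg (x.re + 1)]
      rw [eval_sub, Complex.sub_re, hval]
      linarith)
    have h2 : (eval 0 (C (11/16 : ℂ) - C (3/4 : ℂ) * X + C (1/16 : ℂ) * X ^ 2 - P)).re =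
        11/16 - μ := by
      simp [hμ]
    rw [h2] at this
    linarith
  have hμ0 : 0 < μ := by linarith
  have hμinv : μ⁻¹ ≤ 16/7 := by
    rw [inv_le_comm₀ hμ0 (by norm_num)]
    norm_num
    linarith
  have hμinv' : 4/3 ≤ μ⁻¹ := by
    rw [le_inv_comm₀ (by norm_num) hμ0]
    norm_num
    linarith
  have hμinv0 : 0 < μ⁻¹ := inv_pos.2 hμ0
  refine ⟨1 - C ((μ⁻¹ : ℝ) : ℂ) * P, ?_, ?_, ?_, ?_, ?_⟩
  · rw [eval_sub, eval_one, eval_mul, eval_C, hμc]
    have : (μ : ℂ) ≠ 0 := by exact_mod_cast hμ0.ne'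
    push_cast
    rw [inv_mul_cancel₀ this, sub_self]
  · intro x hx
    have h1 := abs_lt.1 (hnear x hx)
    have h2 := le_max_left 0 (1/2 - x.re)
    rw [eval_sub, eval_one, eval_mul, eval_C, Complex.sub_re, Complex.one_re, Complex.re_ofReal_mul]
    have : -(η) ≤ μ⁻¹ * (P.eval x).re := by
      have h3 : -η' ≤ (P.eval x).re := by linarith
      have : μ⁻¹ * (-η') ≤ μ⁻¹ * (P.eval x).re := mul_le_mul_of_nonneg_left h3 hμinv0.le
      have h4 : -η ≤ μ⁻¹ * (-η') := by
        rw [hη']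
        nlinarith
      linarith
    linarith
  · intro x hx
    have h1 := abs_lt.1 (hnear x hx)
    have hx1 := hxm x hx
    have h2 : max 0 (1/2 - x.re) ≤ 3/2 := by
      apply max_le (by norm_num)
      linarith [hx1.1]
    rw [eval_sub, eval_one, eval_mul, eval_C, Complex.sub_re, Complex.one_re, Complex.re_ofReal_mul]
    have h3 : (P.eval x).re ≤ 3/2 + 1/16 := by linarith
    have h4 : μ⁻¹ * (P.eval x).re ≤ μ⁻¹ * (3/2 + 1/16) := mul_le_mul_of_nonneg_left h3 hμinv0.le
    nlinarith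
  · intro x hx hx'
    have h1 := abs_lt.1 (hnear x hx)
    have h2 : max 0 (1/2 - x.re) = 0 := max_eq_left (by linarith)
    rw [eval_sub, eval_one, eval_mul, eval_C, Complex.sub_re, Complex.one_re, Complex.re_ofReal_mul]
    rw [h2] at h1
    have h3 : (P.eval x).re ≤ η' := by linarith
    have h4 : μ⁻¹ * (P.eval x).re ≤ μ⁻¹ * η' := mul_le_mul_of_nonneg_left h3 hμinv0.le
    have h5 : μ⁻¹ * η' ≤ η := by
      rw [hη']
      nlinarith
    linarith
  · have h1 := abs_lt.1 (hnear (-1) (by simp))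
    have h2 : (3/2 : ℝ) ≤ max 0 (1/2 - (-1 : ℂ).re) := by
      refine le_trans ?_ (le_max_right _ _)
      norm_num
    rw [eval_sub, eval_one, eval_mul, eval_C, Complex.sub_re, Complex.one_re, Complex.re_ofReal_mul]
    have h3 : 3/2 - 1/16 ≤ (P.eval (-1)).re := by linarith
    have h4 : μ⁻¹ * (3/2 - 1/16) ≤ μ⁻¹ * (P.eval (-1)).re := mul_le_mul_of_nonneg_left h3 hμinv0.le
    nlinarith

end Pool.Agent.Helper83_Frankfurt
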