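import Mathlib
import Pool.Agent.Helper83_Frankfurt.Shape

/-!
The real product lemma and the inductive step.
-/

open MeasureTheory Metric Real Set Filter Topology Polynomial

namespace Pool.Agent.Helper83_Frankfurt

theorem exists_bound (P : ℂ[X]) (R : ℝ) : ∃ M : ℝ, 0 ≤ M ∧ ∀ z : ℂ, ‖z‖ ≤ R → ‖P.eval z‖ ≤ M := by
  obtain ⟨M, hM⟩ := (isCompact_closedBall (0:ℂ) R).exists_bound_of_continuousOn
    (P.continuous.continuousOn)
  refine ⟨max M 0, le_max_right _ _, fun z hz => le_trans (hM z (by simpa using hz)) (le_max_left _ _)⟩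

theorem comp_eval (b : ℂ[X]) (r : ℝ) (n : ℕ) (z : ℂ) :
    (b.comp (C (((r : ℂ)⁻¹) ^ n) * X ^ n)).eval z = b.eval ((z / r) ^ n) := by
  rw [eval_comp, eval_mul, eval_C, eval_pow, eval_X, div_eq_mul_inv, mul_pow, mul_comm]

theorem norm_eval_le_of_coeff_zero (b : ℂ[X]) (hb : b.eval 0 = 0) : ∃ M : ℝ, 0 ≤ M ∧
    (∀ x : ℂ, ‖x‖ ≤ 1 → ‖b.eval x‖ ≤ M * ‖x‖) ∧ (∀ x : ℂ, ‖x‖ ≤ 1 → ‖b.divX.eval x‖ ≤ M) ∧
    (∀ x : ℂ, b.eval x = x * b.divX.eval x) := by
  obtain ⟨M, hM0, hM⟩ := exists_bound b.divX 1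
  have h : ∀ x : ℂ, b.eval x = x * b.divX.eval x := by
    intro x
    have h := congrArg (eval x) b.divX_mul_X_add
    rw [eval_add, eval_mul, eval_X, eval_C] at h
    rw [← coeff_zero_eq_eval_zero] at hb
    rw [← h, hb]; ring
  refine ⟨M, hM0, fun x hx => ?_, hM, h⟩
  rw [h, norm_mul, mul_comm]
  exact mul_le_mul_of_nonneg_right (hM x hx) (norm_nonneg _)

theorem real_product (A b : ℂ[X]) (hb : b.eval 0 = 0) {s r : ℝ} (hs : 0 < s) (hsr : s < r)
    {ε : ℝ} (hε : 0 < ε) :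
    ∀ᶠ n : ℕ in atTop, ∃ S : ℂ[X],
      (∀ z : ℂ, ‖z‖ = r → (S.eval z).re = (A.eval z).re * (b.eval ((z / r) ^ n)).re) ∧
      (∀ z : ℂ, ‖z‖ ≤ s → ‖S.eval z‖ ≤ ε) := by
  have hr : 0 < r := hs.trans hsr
  have hrc : (r : ℂ) ≠ 0 := by exact_mod_cast hr.ne'
  obtain ⟨Mb, hMb0, hMb, hMb1, hbx⟩ := norm_eval_le_of_coeff_zero b hb
  set D := A.natDegree with hD
  set A' : ℂ[X] := ∑ l ∈ Finset.range (D + 1),
    C ((starRingEnd ℂ (A.coeff l)) * ((r : ℂ) ^ 2) ^ l) * X ^ (D - l) with hA'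
  obtain ⟨MA, hMA0, hMA⟩ := exists_bound A s
  obtain ⟨MA', hMA'0, hMA'⟩ := exists_bound A' s
  have hA'eval : ∀ z : ℂ, ‖z‖ = r → A'.eval z = z ^ D * starRingEnd ℂ (A.eval z) := by
    intro z hz
    rw [hA', eval_finsetSum, eval_eq_sum_range, map_sum, Finset.mul_sum]
    apply Finset.sum_congr rfl
    intro l hl
    have hl' : l ≤ D := Nat.lt_succ_iff.1 (Finset.mem_range.1 hl)
    have hzz : z * starRingEnd ℂ z = (r : ℂ) ^ 2 := by
      rw [Complex.mul_conj, Complex.normSq_eq_norm_sq, hz]; push_cast; ring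
    rw [eval_mul, eval_C, eval_pow, eval_X, map_mul, map_pow, ← hzz, mul_pow]
    have : z ^ D = z ^ (D - l) * z ^ l := by rw [← pow_add, Nat.sub_add_cancel hl']
    rw [this]; ring
  have hq0 : 0 < s / r := by positivity
  have hq1 : s / r < 1 := (div_lt_one hr).2 hsr
  have hlim : Tendsto (fun n : ℕ => (s / r) ^ n * (MA * Mb + MA' * (s⁻¹) ^ D * Mb)) atTop (𝓝 0) := by
    have := (tendsto_pow_atTop_nhds_zero_of_lt_one hq0.le hq1).mul_const
      (MA * Mb + MA' * (s⁻¹) ^ D * Mb)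
    simpa using this
  have hev := hlim.eventually (ge_mem_nhds hε)
  filter_upwards [hev, eventually_ge_atTop D] with n hn hnD
  refine ⟨C ((1/2 : ℝ) : ℂ) * (A * b.comp (C (((r : ℂ)⁻¹) ^ n) * X ^ n) +
    A' * (C (((r : ℂ)⁻¹) ^ n) * X ^ (n - D)) * b.divX.comp (C (((r : ℂ)⁻¹) ^ n) * X ^ n)), ?_, ?_⟩
  · intro z hz
    have hz0 : z ≠ 0 := by
      intro h; rw [h, norm_zero] at hz; linarith
    have hev : eval z (C ((1/2 : ℝ) : ℂ) * (A * b.comp (C (((r : ℂ)⁻¹) ^ n) * X ^ n) +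
        A' * (C (((r : ℂ)⁻¹) ^ n) * X ^ (n - D)) * b.divX.comp (C (((r : ℂ)⁻¹) ^ n) * X ^ n))) =
        ((A.eval z).re : ℂ) * b.eval ((z / r) ^ n) := by
      rw [eval_mul, eval_C, eval_add, eval_mul, comp_eval, eval_mul, eval_mul, comp_eval,
        hA'eval z hz, eval_mul, eval_C, eval_pow, eval_X, hbx]
      have h1 : z ^ n = z ^ D * z ^ (n - D) := by rw [← pow_add, Nat.add_sub_cancel' hnD]
      have h2 : (z / r) ^ n = (z ^ D * z ^ (n - D)) * (((r : ℂ)⁻¹) ^ n) := by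
        rw [div_eq_mul_inv, mul_pow, h1]
      have h3 : A.eval z + starRingEnd ℂ (A.eval z) = (2 * (A.eval z).re : ℝ) := by
        rw [Complex.add_conj]
      have h4 : ((A.eval z).re : ℂ) = (1/2) * (A.eval z + starRingEnd ℂ (A.eval z)) := by
        rw [h3]; push_cast; ring
      rw [h4]
      generalize eval ((z / (r : ℂ)) ^ n) b.divX = Y
      rw [h2]
      push_cast
      ring
    rw [hev, Complex.re_ofReal_mul]
  · intro z hz
    have hx : ‖(z / r) ^ n‖ ≤ (s / r) ^ n := by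
      rw [norm_pow, norm_div, Complex.norm_real, Real.norm_eq_abs, abs_of_pos hr]
      gcongr
    have hx1 : ‖(z / r) ^ n‖ ≤ 1 := le_trans hx (pow_le_one₀ hq0.le hq1.le)
    have hfac : ‖((r : ℂ)⁻¹) ^ n * z ^ (n - D)‖ ≤ (s / r) ^ n * (s⁻¹) ^ D := by
      rw [norm_mul, norm_pow, norm_inv, Complex.norm_real, Real.norm_eq_abs, abs_of_pos hr, norm_pow]
      calc (r⁻¹) ^ n * ‖z‖ ^ (n - D) ≤ (r⁻¹) ^ n * s ^ (n - D) := by gcongr
        _ = (s / r) ^ n * (s⁻¹) ^ D := by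
          have : s ^ n = s ^ D * s ^ (n - D) := by rw [← pow_add, Nat.add_sub_cancel' hnD]
          rw [div_pow, this, inv_pow, inv_pow]
          field_simp
    rw [eval_mul, eval_C, eval_add, eval_mul, comp_eval, eval_mul, eval_mul, comp_eval,
      eval_mul, eval_C, eval_pow, eval_X, norm_mul, Complex.norm_real]
    have e1 : ‖eval z A * eval ((z / r) ^ n) b‖ ≤ MA * (Mb * (s / r) ^ n) := by
      rw [norm_mul]
      apply mul_le_mul (hMA z hz) _ (norm_nonneg _) hMA0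
      exact le_trans (hMb _ hx1) (mul_le_mul_of_nonneg_left hx hMb0)
    have e2 : ‖eval z A' * (((r : ℂ)⁻¹) ^ n * z ^ (n - D)) * eval ((z / r) ^ n) b.divX‖ ≤
        MA' * ((s / r) ^ n * (s⁻¹) ^ D) * Mb := by
      rw [norm_mul, norm_mul]
      apply mul_le_mul _ (hMb1 _ hx1) (norm_nonneg _) (by positivity)
      exact mul_le_mul (hMA' z hz) hfac (norm_nonneg _) hMA'0
    have e3 := norm_add_le (eval z A * eval ((z / r) ^ n) b)
      (eval z A' * (((r : ℂ)⁻¹) ^ n * z ^ (n - D)) * eval ((z / r) ^ n) b.divX)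
    have e4 : ‖(1/2 : ℝ)‖ = 1/2 := by norm_num
    rw [e4]
    have e5 : MA * (Mb * (s / r) ^ n) + MA' * ((s / r) ^ n * (s⁻¹) ^ D) * Mb =
        (s / r) ^ n * (MA * Mb + MA' * (s⁻¹) ^ D * Mb) := by ring
    have e6 := norm_nonneg (eval z A * eval ((z / r) ^ n) b +
      eval z A' * (((r : ℂ)⁻¹) ^ n * z ^ (n - D)) * eval ((z / r) ^ n) b.divX)
    linarith

/-- **The inductive step.** -/
theorem step (F H : ℂ[X]) {s r : ℝ} (hs : 0 < s) (hsr : s < r) (M Λ : ℝ) (hM : 0 ≤ M)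
    {ε : ℝ} (hε : 0 < ε) :
    ∃ (L : ℝ) (S W : ℂ[X]) (n : ℕ), 0 ≤ L ∧ 1 ≤ n ∧ (s / r) ^ n ≤ 1/8 ∧
      (∀ z : ℂ, ‖z‖ ≤ s → ‖S.eval z‖ ≤ ε) ∧
      (∀ z : ℂ, ‖z‖ ≤ s → ‖W.eval z‖ ≤ ε) ∧
      (∀ z : ℂ, ‖z‖ = r → ((F + S).eval z).re ≤ L + 1) ∧
      (∀ z : ℂ, ‖z‖ = r → 1/2 ≤ ((z / r) ^ n).re → L - 1 ≤ ((F + S).eval z).re) ∧
      (∀ z : ℂ, ‖z‖ = r → ((F + S).eval z).re - ((H + W).eval z).re + M ≤ L + 1) ∧
      (∀ z : ℂ, ‖z‖ = r → |((H + W).eval z).re| + M ≤ L) ∧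
      (∃ z : ℂ, ‖z‖ = r ∧ ((F + S).eval z).re ≤ -Λ) := by
  have hr : 0 < r := hs.trans hsr
  have hrc : (r : ℂ) ≠ 0 := by exact_mod_cast hr.ne'
  obtain ⟨mF, hmF0, hmF⟩ := exists_bound F r
  obtain ⟨mH, hmH0, hmH⟩ := exists_bound H r
  set K : ℝ := mH + M with hK
  have hK0 : 0 ≤ K := by positivity
  set L : ℝ := mF + mH + 8 * K + M + 2 * |Λ| + 3 * mF + 1 with hL
  have hΛ := le_abs_self Λ
  have hΛ0 := abs_nonneg Λ
  have hL0 : 0 ≤ L := by positivity
  set η : ℝ := 1 / (L + mF + 1) with hη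
  have hη0 : 0 < η := by positivity
  have hη1 : η ≤ 1 := by
    rw [hη, div_le_one (by positivity)]
    linarith
  have hηL : η * (L + mF) ≤ 1 := by
    rw [hη, one_div, inv_mul_le_iff₀ (by positivity)]
    linarith
  obtain ⟨b, hb0, hbup, hblow, hbE, hbneg⟩ := exists_shape hη0 hη1
  obtain ⟨Mb, hMb0, hMb, -, -⟩ := norm_eval_le_of_coeff_zero b hb0
  set A : ℂ[X] := C (L : ℂ) - F with hA
  have hAre : ∀ z : ℂ, (A.eval z).re = L - (F.eval z).re := by
    intro z; simp [hA]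
  have hq0 : 0 < s / r := by positivity
  have hq1 : s / r < 1 := (div_lt_one hr).2 hsr
  have hlim := tendsto_pow_atTop_nhds_zero_of_lt_one hq0.le hq1
  have hlimK : Tendsto (fun n : ℕ => K * (Mb * (s / r) ^ n)) atTop (𝓝 0) := by
    have := (hlim.const_mul Mb).const_mul K
    simpa using this
  obtain ⟨n, ⟨S, hS1, hS2⟩, hn8, hnK, hn1⟩ := ((real_product A b hb0 hs hsr hε).and
    ((hlim.eventually (ge_mem_nhds (by norm_num : (0:ℝ) < 1/8))).and
      ((hlimK.eventually (ge_mem_nhds hε)).and (eventually_ge_atTop 1)))).exists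
  -- facts on the circle of radius r
  have hunit : ∀ z : ℂ, ‖z‖ = r → ‖(z / r) ^ n‖ = 1 := by
    intro z hz
    rw [norm_pow, norm_div, Complex.norm_real, Real.norm_eq_abs, abs_of_pos hr, hz,
      div_self hr.ne', one_pow]
  have hFre : ∀ z : ℂ, ‖z‖ = r → |(F.eval z).re| ≤ mF := fun z hz =>
    le_trans (Complex.abs_re_le_norm _) (hmF z hz.le)
  have hHre : ∀ z : ℂ, ‖z‖ = r → |(H.eval z).re| ≤ mH := fun z hz =>
    le_trans (Complex.abs_re_le_norm _) (hmH z hz.le)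
  have hFS : ∀ z : ℂ, ‖z‖ = r → ((F + S).eval z).re =
      (F.eval z).re + (L - (F.eval z).re) * (b.eval ((z / r) ^ n)).re := by
    intro z hz
    rw [eval_add, Complex.add_re, hS1 z hz, hAre]
  set W : ℂ[X] := C (K : ℂ) * b.comp (C (((r : ℂ)⁻¹) ^ n) * X ^ n) with hW
  have hWeval : ∀ z : ℂ, W.eval z = K * b.eval ((z / r) ^ n) := by
    intro z
    rw [hW, eval_mul, eval_C, comp_eval]
  have hHW : ∀ z : ℂ, ((H + W).eval z).re =
      (H.eval z).re + K * (b.eval ((z / r) ^ n)).re := by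
    intro z
    rw [eval_add, Complex.add_re, hWeval, Complex.re_ofReal_mul]
  refine ⟨L, S, W, n, hL0, hn1, hn8, hS2, ?_, ?_, ?_, ?_, ?_, ?_⟩
  · intro z hz
    have hx : ‖(z / r) ^ n‖ ≤ (s / r) ^ n := by
      rw [norm_pow, norm_div, Complex.norm_real, Real.norm_eq_abs, abs_of_pos hr]
      gcongr
    have hx1 : ‖(z / r) ^ n‖ ≤ 1 := le_trans hx (pow_le_one₀ hq0.le hq1.le)
    rw [hWeval, norm_mul, Complex.norm_real, Real.norm_eq_abs, abs_of_nonneg hK0]
    refine le_trans ?_ hnK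
    exact mul_le_mul_of_nonneg_left (le_trans (hMb _ hx1) (mul_le_mul_of_nonneg_left hx hMb0)) hK0
  · intro z hz
    rw [hFS z hz]
    have h1 := abs_le.1 (hFre z hz)
    have h2 := hbup _ (hunit z hz)
    have h3 : 0 ≤ L - (F.eval z).re := by linarith
    have h4 := mul_le_mul_of_nonneg_left h2 h3
    have h5 : η * (L - (F.eval z).re) ≤ η * (L + mF) :=
      mul_le_mul_of_nonneg_left (by linarith) hη0.le
    nlinarith
  · intro z hz hzre
    rw [hFS z hz]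
    have h1 := abs_le.1 (hFre z hz)
    have h2 := hbE _ (hunit z hz) hzre
    have h3 : 0 ≤ L - (F.eval z).re := by linarith
    have h4 := mul_le_mul_of_nonneg_left h2 h3
    have h5 : η * (L - (F.eval z).re) ≤ η * (L + mF) :=
      mul_le_mul_of_nonneg_left (by linarith) hη0.le
    nlinarith
  · intro z hz
    rw [hFS z hz, hHW z]
    have h1 := abs_le.1 (hFre z hz)
    have h1' := abs_le.1 (hHre z hz)
    have h2 := hbup _ (hunit z hz)
    have h3 : 0 ≤ L - (F.eval z).re - K := by linarith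
    have h4 := mul_le_mul_of_nonneg_left h2 h3
    have h5 : η * (L - (F.eval z).re - K) ≤ η * (L + mF) :=
      mul_le_mul_of_nonneg_left (by linarith) hη0.le
    nlinarith
  · intro z hz
    rw [hHW z]
    have h1' := hHre z hz
    have h2 := hbup _ (hunit z hz)
    have h3 := hblow _ (hunit z hz)
    have h4 : |K * (b.eval ((z / r) ^ n)).re| ≤ 4 * K := by
      rw [abs_mul, abs_of_nonneg hK0]
      have : |(b.eval ((z / r) ^ n)).re| ≤ 4 := abs_le.2 ⟨h3, by linarith⟩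
      nlinarith
    have h5 := abs_add_le (H.eval z).re (K * (b.eval ((z / r) ^ n)).re)
    linarith
  · -- the point with X = -1
    refine ⟨r * Complex.exp ((π / n : ℝ) * Complex.I), ?_, ?_⟩
    · rw [norm_mul, Complex.norm_exp_ofReal_mul_I, mul_one, Complex.norm_real, Real.norm_eq_abs,
        abs_of_pos hr]
    · have hznorm : ‖(r : ℂ) * Complex.exp ((π / n : ℝ) * Complex.I)‖ = r := by
        rw [norm_mul, Complex.norm_exp_ofReal_mul_I, mul_one, Complex.norm_real, Real.norm_eq_abs,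
          abs_of_pos hr]
      rw [hFS _ hznorm]
      have hn0 : (n : ℂ) ≠ 0 := by exact_mod_cast (by omega : n ≠ 0)
      have hX : ((r : ℂ) * Complex.exp ((π / n : ℝ) * Complex.I) / r) ^ n = -1 := by
        rw [mul_div_cancel_left₀ _ hrc, ← Complex.exp_nat_mul]
        have : (n : ℂ) * ((π / n : ℝ) * Complex.I) = π * Complex.I := by
          push_cast
          field_simp
        rw [this, Complex.exp_pi_mul_I]
      rw [hX]
      set z := (r : ℂ) * Complex.exp ((π / n : ℝ) * Complex.I)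
      have h1 := abs_le.1 (hFre z hznorm)
      have h3 : 0 ≤ L - (F.eval z).re := by linarith
      have h4 := mul_le_mul_of_nonneg_left hbneg h3
      nlinarith

end Pool.Agent.Helper83_Frankfurt
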