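import Mathlib
import Pool.Agent.Helper83_Frankfurt.Step

/-!
The recursive construction and the limit functions.
-/

open MeasureTheory Metric Real Set Filter Topology Polynomial

namespace Pool.Agent.Helper83_Frankfurt

/-- inner radii -/
noncomputable def sR (j : ℕ) : ℝ := 1 - (1/2) ^ (2 * j + 1)
/-- outer radii -/
noncomputable def rR (j : ℕ) : ℝ := 1 - (1/2) ^ (2 * j + 2)

theorem sR_pos (j : ℕ) : 0 < sR j := by
  have : ((1/2 : ℝ)) ^ (2 * j + 1) ≤ (1/2) ^ 1 :=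
    pow_le_pow_of_le_one (by norm_num) (by norm_num) (by omega)
  unfold sR; linarith

theorem sR_lt_rR (j : ℕ) : sR j < rR j := by
  have : ((1/2 : ℝ)) ^ (2 * j + 2) < (1/2) ^ (2 * j + 1) :=
    pow_lt_pow_right_of_lt_one₀ (by norm_num) (by norm_num) (by omega)
  unfold sR rR; linarith

theorem rR_lt_sR (j : ℕ) : rR j < sR (j + 1) := by
  have : ((1/2 : ℝ)) ^ (2 * (j + 1) + 1) < (1/2) ^ (2 * j + 2) :=
    pow_lt_pow_right_of_lt_one₀ (by norm_num) (by norm_num) (by omega)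
  unfold sR rR; linarith

theorem rR_pos (j : ℕ) : 0 < rR j := (sR_pos j).trans (sR_lt_rR j)

theorem rR_lt_one (j : ℕ) : rR j < 1 := by
  have : (0:ℝ) < (1/2) ^ (2 * j + 2) := by positivity
  unfold rR; linarith

theorem sR_lt_one (j : ℕ) : sR j < 1 := (sR_lt_rR j).trans (rR_lt_one j)

theorem sR_strictMono : StrictMono sR :=
  strictMono_nat_of_lt_succ fun j => (sR_lt_rR j).trans (rR_lt_sR j)

theorem sR_mono : Monotone sR := sR_strictMono.monotone

theorem rR_le_sR {j m : ℕ} (h : j < m) : rR j ≤ sR m :=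
  (rR_lt_sR j).le.trans (sR_mono h)

theorem rR_strictMono : StrictMono rR :=
  strictMono_nat_of_lt_succ fun j => (rR_lt_sR j).trans (sR_lt_rR (j + 1))

theorem exists_lt_sR {x : ℝ} (hx : x < 1) : ∃ m, x < sR m := by
  have h : Tendsto (fun m : ℕ => sR m) atTop (𝓝 1) := by
    have h1 : Tendsto (fun m : ℕ => ((1/2 : ℝ)) ^ (2 * m + 1)) atTop (𝓝 0) :=
      (tendsto_pow_atTop_nhds_zero_of_lt_one (by norm_num) (by norm_num)).comp
        (tendsto_atTop_mono (fun m => (by omega : m ≤ 2 * m + 1)) tendsto_id)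
    have := h1.const_sub 1
    simpa [sR] using this
  exact (h.eventually (lt_mem_nhds hx)).exists

/-- Output of one step. -/
structure StepOut (F H : ℂ[X]) (s r M Λ ε : ℝ) where
  L : ℝ
  S : ℂ[X]
  W : ℂ[X]
  n : ℕ
  hL : 0 ≤ L
  hn : 1 ≤ n
  hn8 : (s / r) ^ n ≤ 1/8
  hS : ∀ z : ℂ, ‖z‖ ≤ s → ‖S.eval z‖ ≤ ε
  hW : ∀ z : ℂ, ‖z‖ ≤ s → ‖W.eval z‖ ≤ ε
  hup : ∀ z : ℂ, ‖z‖ = r → ((F + S).eval z).re ≤ L + 1
  hE : ∀ z : ℂ, ‖z‖ = r → 1/2 ≤ ((z / r) ^ n).re → L - 1 ≤ ((F + S).eval z).re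
  hG : ∀ z : ℂ, ‖z‖ = r → ((F + S).eval z).re - ((H + W).eval z).re + M ≤ L + 1
  hH : ∀ z : ℂ, ‖z‖ = r → |((H + W).eval z).re| + M ≤ L
  hneg : ∃ z : ℂ, ‖z‖ = r ∧ ((F + S).eval z).re ≤ -Λ

theorem nonempty_stepOut (F H : ℂ[X]) {s r : ℝ} (hs : 0 < s) (hsr : s < r) (M Λ : ℝ) (hM : 0 ≤ M)
    {ε : ℝ} (hε : 0 < ε) : Nonempty (StepOut F H s r M Λ ε) := by
  obtain ⟨L, S, W, n, h1, h2, h3, h4, h5, h6, h7, h8, h9, h10⟩ := step F H hs hsr M Λ hM hε
  exact ⟨⟨L, S, W, n, h1, h2, h3, h4, h5, h6, h7, h8, h9, h10⟩⟩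

/-- State of the recursion. -/
structure St where
  F : ℂ[X]
  H : ℂ[X]
  M : ℝ
  hM : 0 ≤ M

/-- the step applied to a state -/
noncomputable def out (Λ : ℕ → ℝ) (j : ℕ) (x : St) :
    StepOut x.F x.H (sR j) (rR j) x.M (Λ j) ((1/2) ^ (j + 1)) :=
  Classical.choice (nonempty_stepOut x.F x.H (sR_pos j) (sR_lt_rR j) x.M (Λ j) x.hM (by positivity))

/-- a bound of a polynomial on the closed unit disc -/
noncomputable def bd (P : ℂ[X]) : ℝ := Classical.choose (exists_bound P 1)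

theorem le_bd (P : ℂ[X]) {z : ℂ} (hz : ‖z‖ ≤ 1) : ‖P.eval z‖ ≤ bd P :=
  (Classical.choose_spec (exists_bound P 1)).2 z hz

/-- next state -/
noncomputable def next (Λ : ℕ → ℝ) (j : ℕ) (x : St) : St where
  F := x.F + (out Λ j x).S
  H := x.H + (out Λ j x).W
  M := max x.M (max (bd ((x.F + (out Λ j x).S) - (x.H + (out Λ j x).W)))
    (bd (x.H + (out Λ j x).W)))
  hM := le_max_of_le_left x.hM

/-- the recursion -/
noncomputable def st (Λ : ℕ → ℝ) : ℕ → St
  | 0 => ⟨0, 0, 0, le_rfl⟩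
  | j + 1 => next Λ j (st Λ j)

theorem st_F (Λ : ℕ → ℝ) (j : ℕ) :
    (st Λ j).F = ∑ i ∈ Finset.range j, (out Λ i (st Λ i)).S := by
  induction j with
  | zero => simp [st]
  | succ j ih => rw [Finset.sum_range_succ, ← ih]; rfl

theorem st_H (Λ : ℕ → ℝ) (j : ℕ) :
    (st Λ j).H = ∑ i ∈ Finset.range j, (out Λ i (st Λ i)).W := by
  induction j with
  | zero => simp [st]
  | succ j ih => rw [Finset.sum_range_succ, ← ih]; rfl

theorem st_M (Λ : ℕ → ℝ) (j N : ℕ) (hN : N ≤ j) {z : ℂ} (hz : ‖z‖ ≤ 1) :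
    ‖((st Λ N).F - (st Λ N).H).eval z‖ ≤ (st Λ j).M ∧ ‖((st Λ N).H).eval z‖ ≤ (st Λ j).M := by
  induction j with
  | zero =>
    obtain rfl : N = 0 := by omega
    simp [st]
  | succ j ih =>
    have hmono : (st Λ j).M ≤ (st Λ (j + 1)).M := le_max_left _ _
    rcases Nat.lt_or_ge j N with h | h
    · obtain rfl : N = j + 1 := by omega
      constructor
      · refine le_trans (le_bd _ hz) (le_trans ?_ (le_max_right _ _))
        exact le_max_left _ _
      · refine le_trans (le_bd _ hz) (le_trans ?_ (le_max_right _ _))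
        exact le_max_right _ _
    · obtain ⟨h1, h2⟩ := ih h
      exact ⟨h1.trans hmono, h2.trans hmono⟩

/-- **The sequences.** -/
theorem exists_seq (Λ : ℕ → ℝ) : ∃ (S W : ℕ → ℂ[X]) (L : ℕ → ℝ) (n : ℕ → ℕ), ∀ j,
    0 ≤ L j ∧ 1 ≤ n j ∧ (sR j / rR j) ^ n j ≤ 1/8 ∧
    (∀ z : ℂ, ‖z‖ ≤ sR j → ‖(S j).eval z‖ ≤ (1/2) ^ (j + 1)) ∧
    (∀ z : ℂ, ‖z‖ ≤ sR j → ‖(W j).eval z‖ ≤ (1/2) ^ (j + 1)) ∧
    (∀ z : ℂ, ‖z‖ = rR j → (∑ i ∈ Finset.range (j + 1), (S i).eval z).re ≤ L j + 1) ∧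
    (∀ z : ℂ, ‖z‖ = rR j → 1/2 ≤ ((z / rR j) ^ n j).re →
      L j - 1 ≤ (∑ i ∈ Finset.range (j + 1), (S i).eval z).re) ∧
    (∀ N ≤ j, ∀ z : ℂ, ‖z‖ = rR j → (∑ i ∈ Finset.range (j + 1), (S i - W i).eval z).re -
      (∑ i ∈ Finset.range N, (S i - W i).eval z).re ≤ L j + 1) ∧
    (∀ N ≤ j, ∀ z : ℂ, ‖z‖ = rR j → (∑ i ∈ Finset.range (j + 1), (W i).eval z).re -
      (∑ i ∈ Finset.range N, (W i).eval z).re ≤ L j + 1) ∧
    (∃ z : ℂ, ‖z‖ = rR j ∧ (∑ i ∈ Finset.range (j + 1), (S i).eval z).re ≤ -Λ j) := by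
  set o := fun j => out Λ j (st Λ j) with ho
  have hF : ∀ j (z : ℂ), ∑ i ∈ Finset.range (j + 1), ((o i).S).eval z =
      ((st Λ j).F + (o j).S).eval z := by
    intro j z
    have h0 : ((st Λ j).F).eval z = ∑ i ∈ Finset.range j, ((o i).S).eval z := by
      rw [st_F, eval_finsetSum]
    rw [Finset.sum_range_succ, eval_add]
    exact congrArg (fun t => t + eval z (o j).S) h0.symm
  have hH : ∀ j (z : ℂ), ∑ i ∈ Finset.range (j + 1), ((o i).W).eval z =
      ((st Λ j).H + (o j).W).eval z := by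
    intro j z
    have h0 : ((st Λ j).H).eval z = ∑ i ∈ Finset.range j, ((o i).W).eval z := by
      rw [st_H, eval_finsetSum]
    rw [Finset.sum_range_succ, eval_add]
    exact congrArg (fun t => t + eval z (o j).W) h0.symm
  have hG : ∀ j (z : ℂ), ∑ i ∈ Finset.range (j + 1), ((o i).S - (o i).W).eval z =
      ((st Λ j).F + (o j).S).eval z - ((st Λ j).H + (o j).W).eval z := by
    intro j z
    rw [← hF, ← hH, ← Finset.sum_sub_distrib]
    simp
  have hG' : ∀ N (z : ℂ), ∑ i ∈ Finset.range N, ((o i).S - (o i).W).eval z =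
      ((st Λ N).F - (st Λ N).H).eval z := by
    intro N z
    rw [st_F, st_H, ← Finset.sum_sub_distrib, eval_finsetSum]
  have hH' : ∀ N (z : ℂ), ∑ i ∈ Finset.range N, ((o i).W).eval z = ((st Λ N).H).eval z := by
    intro N z
    rw [st_H, eval_finsetSum]
  refine ⟨fun j => (o j).S, fun j => (o j).W, fun j => (o j).L, fun j => (o j).n, fun j =>
    ⟨(o j).hL, (o j).hn, (o j).hn8, (o j).hS, (o j).hW, ?_, ?_, ?_, ?_, ?_⟩⟩
  · intro z hz
    rw [hF]
    exact (o j).hup z hz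
  · intro z hz hz'
    rw [hF]
    exact (o j).hE z hz hz'
  · intro N hN z hz
    rw [hG, hG', Complex.sub_re]
    have h1 := (o j).hG z hz
    have h2 := (st_M Λ j N hN (z := z) (hz ▸ (rR_lt_one j).le)).1
    have h3 := abs_le.1 (Complex.abs_re_le_norm (((st Λ N).F - (st Λ N).H).eval z))
    linarith
  · intro N hN z hz
    rw [hH, hH']
    have h1 := (o j).hH z hz
    have h2 := (st_M Λ j N hN (z := z) (hz ▸ (rR_lt_one j).le)).2
    have h3 := abs_le.1 (Complex.abs_re_le_norm (((st Λ N).H).eval z))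
    have h4 := le_abs_self ((((st Λ j).H + (o j).W).eval z).re)
    linarith
  · obtain ⟨z, hz, hz'⟩ := (o j).hneg
    refine ⟨z, hz, ?_⟩
    rw [hF]
    exact hz'

/-- sums of polynomials that are small on the discs `|z| ≤ s_j` -/
theorem tsum_poly {S : ℕ → ℂ[X]} (hS : ∀ j (z : ℂ), ‖z‖ ≤ sR j → ‖(S j).eval z‖ ≤ (1/2) ^ (j + 1)) :
    DifferentiableOn ℂ (fun z => ∑' j, (S j).eval z) (ball 0 1) ∧
    ∀ m (z : ℂ), ‖z‖ ≤ sR m →
      ‖(∑' j, (S j).eval z) - ∑ j ∈ Finset.range m, (S j).eval z‖ ≤ (1/2) ^ m := by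
  have hgeo : ∀ m : ℕ, HasSum (fun i : ℕ => ((1/2 : ℝ)) ^ (i + m + 1)) ((1/2) ^ m) := by
    intro m
    have := (hasSum_geometric_two).mul_left ((1/2 : ℝ) ^ (m + 1))
    have e : (1/2 : ℝ) ^ (m + 1) * 2 = (1/2) ^ m := by rw [pow_succ]; ring
    rw [e] at this
    refine this.congr_fun ?_ |> fun h => h
    intro i
    rw [← pow_add]
    congr 1
    ring
  have hb : ∀ m (z : ℂ), ‖z‖ ≤ sR m → ∀ i, ‖(S (i + m)).eval z‖ ≤ (1/2) ^ (i + m + 1) :=
    fun m z hz i => hS (i + m) z (hz.trans (sR_mono (by omega)))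
  have hsum : ∀ m (z : ℂ), ‖z‖ ≤ sR m → Summable (fun i => (S (i + m)).eval z) :=
    fun m z hz => Summable.of_norm_bounded (hgeo m).summable (hb m z hz)
  have hsum' : ∀ m (z : ℂ), ‖z‖ ≤ sR m → Summable (fun i => (S i).eval z) :=
    fun m z hz => (summable_nat_add_iff (f := fun i => (S i).eval z) m).1 (hsum m z hz)
  constructor
  · intro z hz
    have hz' : ‖z‖ < 1 := by simpa using hz
    obtain ⟨m, hm⟩ := exists_lt_sR hz'
    have hU : IsOpen (ball (0:ℂ) (sR m)) := isOpen_ball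
    have hzU : z ∈ ball (0:ℂ) (sR m) := by simpa using hm
    have hd : DifferentiableOn ℂ (fun z => ∑' i, (S (i + m)).eval z) (ball (0:ℂ) (sR m)) := by
      apply Complex.differentiableOn_tsum_of_summable_norm (hgeo m).summable
      · intro i
        exact (S (i + m)).differentiable.differentiableOn
      · exact hU
      · intro i w hw
        exact hb m w (by simpa using (mem_ball_zero_iff.1 hw).le) i
    have hd2 : DifferentiableOn ℂ (fun z => ∑ i ∈ Finset.range m, (S i).eval z +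
        ∑' i, (S (i + m)).eval z) (ball (0:ℂ) (sR m)) := by
      apply DifferentiableOn.add _ hd
      apply DifferentiableOn.fun_sum
      intro i _
      exact (S i).differentiable.differentiableOn
    have heq : EqOn (fun z => ∑' j, (S j).eval z) (fun z => ∑ i ∈ Finset.range m, (S i).eval z +
        ∑' i, (S (i + m)).eval z) (ball (0:ℂ) (sR m)) := by
      intro w hw
      exact ((hsum' m w (mem_ball_zero_iff.1 hw).le).sum_add_tsum_nat_add m).symm
    have hd3 := hd2.congr heq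
    exact (hd3.differentiableAt (hU.mem_nhds hzU)).differentiableWithinAt
  · intro m z hz
    have h1 := (hsum' m z hz).sum_add_tsum_nat_add m
    rw [← h1, add_sub_cancel_left]
    exact tsum_of_norm_bounded (hgeo m) (hb m z hz)

end Pool.Agent.Helper83_Frankfurt
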