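import Mathlib
import Pool.Agent.Helper83_Frankfurt.Defs
import Pool.Agent.Helper83_Frankfurt.Seq

/-!
Norm estimates in `E^p(μ)` for atomic radial measures.
-/

open MeasureTheory Metric Real Set Filter Topology
open scoped ENNReal

namespace Pool.Agent.Helper83_Frankfurt

/-- The atomic radial measure with masses `c j` at the radii `rR j`. -/
noncomputable def nuM (c : ℕ → ℝ) : Measure ℝ :=
  Measure.sum (fun j => ENNReal.ofReal (c j) • Measure.dirac (rR j))

theorem nuM_apply (c : ℕ → ℝ) {s : Set ℝ} (hs : MeasurableSet s) :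
    nuM c s = ∑' j, ENNReal.ofReal (c j) * s.indicator 1 (rR j) := by
  rw [nuM, Measure.sum_apply _ hs]
  congr 1
  ext j
  rw [Measure.smul_apply, Measure.dirac_apply' _ hs, smul_eq_mul]

theorem isRadialMeasure_nuM {c : ℕ → ℝ} (hc : ∀ j, 0 < c j) (hsum : Summable c) :
    IsRadialMeasure (nuM c) := by
  refine ⟨?_, ?_, ?_, ?_⟩
  · rw [nuM_apply c MeasurableSet.univ]
    simp only [indicator_univ, Pi.one_apply, mul_one]
    have := hsum.tsum_ofReal_lt_top
    exact this
  · rw [nuM_apply c measurableSet_Icc.compl]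
    simp only [ENNReal.tsum_eq_zero]
    intro j
    have : rR j ∉ (Set.Icc (0:ℝ) 1)ᶜ := by
      simp only [mem_compl_iff, not_not]
      exact ⟨(rR_pos j).le, (rR_lt_one j).le⟩
    rw [indicator_of_notMem this, mul_zero]
  · rw [nuM_apply c (measurableSet_singleton 0)]
    simp only [ENNReal.tsum_eq_zero]
    intro j
    have : rR j ∉ ({0} : Set ℝ) := by
      simp only [mem_singleton_iff]
      exact (rR_pos j).ne'
    rw [indicator_of_notMem this, mul_zero]
  · intro τ _ hτ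
    rw [nuM_apply c measurableSet_Icc]
    obtain ⟨m, hm⟩ := exists_lt_sR hτ
    have hmem : rR m ∈ Set.Icc τ 1 := ⟨(hm.trans (sR_lt_rR m)).le, (rR_lt_one m).le⟩
    refine lt_of_lt_of_le ?_ (ENNReal.le_tsum m)
    rw [indicator_of_mem hmem, Pi.one_apply, mul_one]
    exact ENNReal.ofReal_pos.2 (hc m)

theorem lintegral_nuM (c : ℕ → ℝ) (φ : ℝ → ℝ≥0∞) :
    ∫⁻ x, φ x ∂(nuM c) = ∑' j, ENNReal.ofReal (c j) * φ (rR j) := by
  rw [nuM, lintegral_sum_measure]
  congr 1
  ext j
  rw [lintegral_smul_measure, lintegral_dirac, smul_eq_mul]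

/-- upper bound for the norm -/
theorem eNorm_le {p : ℝ} (hp : 0 < p) {c : ℕ → ℝ} {Φ : ℂ → ℂ} {m : ℕ → ℝ}
    (hm : ∀ j (z : ℂ), ‖z‖ ≤ rR j → ‖Φ z‖ ≤ m j) :
    eNorm p (symMeasure (nuM c)) Φ ≤
      (∑' j, ENNReal.ofReal (c j) * ENNReal.ofReal (m j) ^ p) ^ (1 / p) := by
  unfold eNorm
  refine iSup₂_le fun τ hτ => ?_
  unfold Mp
  apply ENNReal.rpow_le_rpow _ (by positivity)
  unfold symMeasure
  rw [lintegral_smul_measure]
  calc ENNReal.ofReal (2 * π)⁻¹ • ∫⁻ w, ‖Φ ((τ : ℂ) * w)‖ₑ ^ p ∂(Measure.map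
        (fun x : ℝ × ℝ => (x.1 : ℂ) * Complex.exp ((x.2 : ℂ) * Complex.I))
        ((nuM c).prod (volume.restrict (Set.Ioc 0 (2 * π)))))
      ≤ ENNReal.ofReal (2 * π)⁻¹ • ∫⁻ x, ∫⁻ y, ‖Φ ((τ : ℂ) * ((x : ℂ) * Complex.exp ((y : ℂ) * Complex.I)))‖ₑ ^ p
          ∂(volume.restrict (Set.Ioc 0 (2 * π))) ∂(nuM c) := by
        gcongr
        refine le_trans (lintegral_map_le _ _) ?_
        exact lintegral_prod_le _
    _ = ENNReal.ofReal (2 * π)⁻¹ * ∑' j, ENNReal.ofReal (c j) *
          ∫⁻ y, ‖Φ ((τ : ℂ) * ((rR j : ℂ) * Complex.exp ((y : ℂ) * Complex.I)))‖ₑ ^ p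
          ∂(volume.restrict (Set.Ioc 0 (2 * π))) := by
        rw [lintegral_nuM, smul_eq_mul]
    _ ≤ ENNReal.ofReal (2 * π)⁻¹ * ∑' j, ENNReal.ofReal (c j) *
          (ENNReal.ofReal (m j) ^ p * ENNReal.ofReal (2 * π)) := by
        gcongr with j
        refine le_trans (lintegral_mono (g := fun _ => ENNReal.ofReal (m j) ^ p) ?_) ?_
        · intro y
          apply ENNReal.rpow_le_rpow _ hp.le
          rw [← ofReal_norm]
          apply ENNReal.ofReal_le_ofReal
          apply hm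
          rw [norm_mul, norm_mul, Complex.norm_real, Complex.norm_real,
            Complex.norm_exp_ofReal_mul_I, mul_one, Real.norm_eq_abs, Real.norm_eq_abs,
            abs_of_nonneg hτ.1, abs_of_pos (rR_pos j)]
          have := hτ.2
          have h0 := rR_pos j
          nlinarith
        · rw [lintegral_const, Measure.restrict_apply MeasurableSet.univ, univ_inter,
            Real.volume_Ioc, sub_zero]
    _ = ∑' j, ENNReal.ofReal (c j) * ENNReal.ofReal (m j) ^ p := by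
        rw [← ENNReal.tsum_mul_left]
        congr 1
        ext j
        have h1 : ENNReal.ofReal (2 * π)⁻¹ * ENNReal.ofReal (2 * π) = 1 := by
          rw [← ENNReal.ofReal_mul (by positivity), inv_mul_cancel₀ (by positivity),
            ENNReal.ofReal_one]
        calc ENNReal.ofReal (2 * π)⁻¹ * (ENNReal.ofReal (c j) *
              (ENNReal.ofReal (m j) ^ p * ENNReal.ofReal (2 * π)))
            = (ENNReal.ofReal (2 * π)⁻¹ * ENNReal.ofReal (2 * π)) *
              (ENNReal.ofReal (c j) * ENNReal.ofReal (m j) ^ p) := by ring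
          _ = _ := by rw [h1, one_mul]

/-- lower bound for the norm, at a fixed `τ < 1`. -/
theorem le_eNorm_aux {p : ℝ} (hp : 0 < p) {c : ℕ → ℝ} (hc : ∀ j, 0 < c j) {Φ : ℂ → ℂ}
    (hΦ : ContinuousOn Φ (ball 0 1)) (j : ℕ) {τ : ℝ} (hτ0 : 0 ≤ τ) (hτ1 : τ < 1) :
    ENNReal.ofReal (c j * circleAverage (fun z => ‖Φ z‖ ^ p) 0 (τ * rR j)) ≤
      eNorm p (symMeasure (nuM c)) Φ ^ p := by
  have hsup : Mp p (symMeasure (nuM c)) Φ τ ≤ eNorm p (symMeasure (nuM c)) Φ := by
    unfold eNorm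
    exact le_iSup₂ (f := fun τ (_ : τ ∈ Set.Ico (0:ℝ) 1) => Mp p (symMeasure (nuM c)) Φ τ) τ
      ⟨hτ0, hτ1⟩
  have hMp : Mp p (symMeasure (nuM c)) Φ τ ^ p =
      ∫⁻ w, ‖Φ ((τ : ℂ) * w)‖ₑ ^ p ∂(symMeasure (nuM c)) := by
    unfold Mp
    rw [← ENNReal.rpow_mul, one_div, inv_mul_cancel₀ hp.ne', ENNReal.rpow_one]
  refine le_trans ?_ (ENNReal.rpow_le_rpow hsup hp.le)
  rw [hMp]
  unfold symMeasure
  set g : ℝ × ℝ → ℂ := fun x => (x.1 : ℂ) * Complex.exp ((x.2 : ℂ) * Complex.I) with hg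
  set ρ := (nuM c).prod (volume.restrict (Set.Ioc 0 (2 * π))) with hρ
  have hgcont : Continuous g := by rw [hg]; fun_prop
  have hgm : Measurable g := hgcont.measurable
  -- the map measure lives on the closed unit disc
  have hae : ∀ᵐ w ∂(Measure.map g ρ), w ∈ closedBall (0:ℂ) 1 := by
    rw [ae_iff]
    change Measure.map g ρ (closedBall (0:ℂ) 1)ᶜ = 0
    rw [Measure.map_apply hgm isClosed_closedBall.measurableSet.compl]
    have hsub : g ⁻¹' (closedBall (0:ℂ) 1)ᶜ ⊆ (Set.Icc (0:ℝ) 1)ᶜ ×ˢ (Set.univ : Set ℝ) := by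
      rintro ⟨x, y⟩ hxy
      simp only [mem_preimage, mem_compl_iff, mem_closedBall_zero_iff, not_le, hg, norm_mul,
        Complex.norm_real, Complex.norm_exp_ofReal_mul_I, mul_one] at hxy
      simp only [mem_prod, mem_compl_iff, mem_Icc, mem_univ, and_true]
      rintro ⟨h1, h2⟩
      rw [Real.norm_eq_abs, abs_of_nonneg h1] at hxy
      linarith
    refine measure_mono_null hsub ?_
    have hν : nuM c (Set.Icc (0:ℝ) 1)ᶜ = 0 := by
      rw [nuM_apply c measurableSet_Icc.compl]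
      simp only [ENNReal.tsum_eq_zero]
      intro j
      have : rR j ∉ (Set.Icc (0:ℝ) 1)ᶜ := by
        simp only [mem_compl_iff, not_not]
        exact ⟨(rR_pos j).le, (rR_lt_one j).le⟩
      rw [indicator_of_notMem this, mul_zero]
    have : SFinite (nuM c) := by unfold nuM; infer_instance
    rw [hρ, Measure.prod_prod, hν, zero_mul]
  have hrestr : (Measure.map g ρ).restrict (closedBall (0:ℂ) 1) = Measure.map g ρ :=
    Measure.restrict_eq_self_of_ae_mem hae
  have hcontτ : ContinuousOn (fun w : ℂ => Φ ((τ : ℂ) * w)) (closedBall 0 1) := by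
    apply hΦ.comp (by fun_prop)
    intro w hw
    rw [mem_closedBall_zero_iff] at hw
    rw [mem_ball_zero_iff, norm_mul, Complex.norm_real, Real.norm_eq_abs, abs_of_nonneg hτ0]
    have := norm_nonneg w
    nlinarith
  have haem : AEMeasurable (fun w : ℂ => ‖Φ ((τ : ℂ) * w)‖ₑ ^ p) (Measure.map g ρ) := by
    rw [← hrestr]
    apply AEMeasurable.pow_const
    apply AEMeasurable.enorm
    exact hcontτ.aemeasurable isClosed_closedBall.measurableSet
  have : SFinite (nuM c) := by unfold nuM; infer_instance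
  rw [lintegral_smul_measure, lintegral_map' haem hgm.aemeasurable, hρ,
    lintegral_prod (fun a => ‖Φ ((τ : ℂ) * g a)‖ₑ ^ p) (haem.comp_measurable hgm), lintegral_nuM]
  rw [smul_eq_mul]
  refine le_trans ?_ (mul_le_mul_right (ENNReal.le_tsum j) _)
  -- the inner integral is a circle average
  have hr0 := rR_pos j
  have hr1 := rR_lt_one j
  have hcirc : Continuous (fun y : ℝ => ‖Φ (circleMap 0 (τ * rR j) y)‖ ^ p) := by
    apply Continuous.rpow_const _ (fun _ => Or.inr hp.le)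
    apply Continuous.norm
    apply hΦ.comp_continuous (by fun_prop)
    intro y
    rw [mem_ball_zero_iff, norm_circleMap_zero, abs_of_nonneg (by positivity)]
    nlinarith
  have hinner : ∫⁻ y, ‖Φ ((τ : ℂ) * g (rR j, y))‖ₑ ^ p ∂(volume.restrict (Set.Ioc 0 (2 * π))) =
      ENNReal.ofReal ((2 * π) * circleAverage (fun z => ‖Φ z‖ ^ p) 0 (τ * rR j)) := by
    rw [circleAverage, smul_eq_mul, ← mul_assoc, mul_inv_cancel₀ (by positivity), one_mul,
      intervalIntegral.integral_of_le two_pi_pos.le,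
      ofReal_integral_eq_lintegral_ofReal (hcirc.integrableOn_Ioc)
        (ae_of_all _ fun y => by positivity)]
    apply lintegral_congr
    intro y
    have hz : (τ : ℂ) * g (rR j, y) = circleMap 0 (τ * rR j) y := by
      simp only [hg, circleMap, zero_add]
      push_cast
      ring
    rw [hz, ← ofReal_norm, ENNReal.ofReal_rpow_of_nonneg (norm_nonneg _) hp.le]
  rw [hinner]
  rw [← ENNReal.ofReal_mul (hc j).le, ← ENNReal.ofReal_mul (by positivity)]
  apply ENNReal.ofReal_le_ofReal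
  apply le_of_eq
  field_simp

/-- lower bound for the norm -/
theorem le_eNorm {p : ℝ} (hp : 0 < p) {c : ℕ → ℝ} (hc : ∀ j, 0 < c j) {Φ : ℂ → ℂ}
    (hΦ : ContinuousOn Φ (ball 0 1)) (j : ℕ) :
    ENNReal.ofReal (c j * circleAverage (fun z => ‖Φ z‖ ^ p) 0 (rR j)) ≤
      eNorm p (symMeasure (nuM c)) Φ ^ p := by
  have hcont : ContinuousOn (circleAverage (fun z => ‖Φ z‖ ^ p) 0) (Set.Ico 0 1) := by
    apply ContinuousOn.circleAverage
    · apply ContinuousOn.rpow_const _ (fun _ _ => Or.inr hp.le)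
      apply ContinuousOn.norm
      apply hΦ.mono
      intro z hz
      simp only [sub_zero, mem_ofPred_eq, mem_Ico] at hz
      simpa using hz.2
    · intro r hr
      exact hr.1
  have hr0 := rR_pos j
  have hr1 := rR_lt_one j
  have h1 : ContinuousAt (circleAverage (fun z => ‖Φ z‖ ^ p) 0) (rR j) :=
    hcont.continuousAt (Ico_mem_nhds hr0 hr1)
  have h2 : Tendsto (fun τ : ℝ => ENNReal.ofReal (c j *
      circleAverage (fun z => ‖Φ z‖ ^ p) 0 (τ * rR j))) (𝓝[<] 1)
      (𝓝 (ENNReal.ofReal (c j * circleAverage (fun z => ‖Φ z‖ ^ p) 0 (rR j)))) := by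
    apply ENNReal.tendsto_ofReal
    apply Tendsto.const_mul
    have h3 : Tendsto (fun τ : ℝ => τ * rR j) (𝓝[<] 1) (𝓝 (rR j)) := by
      have : Tendsto (fun τ : ℝ => τ * rR j) (𝓝 1) (𝓝 (1 * rR j)) :=
        tendsto_id.mul_const _
      rw [one_mul] at this
      exact this.mono_left nhdsWithin_le_nhds
    exact h1.tendsto.comp h3
  refine le_of_tendsto h2 ?_
  have hmem : Set.Ioo (0:ℝ) 1 ∈ 𝓝[<] (1:ℝ) := Ioo_mem_nhdsLT one_pos
  filter_upwards [hmem] with τ hτ
  exact le_eNorm_aux hp hc hΦ j hτ.1.le hτ.2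

end Pool.Agent.Helper83_Frankfurt
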