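import Mathlib
import Pool.Agent.Helper83_Frankfurt.Norms

/-!
A sufficient criterion for weak invertibility of `exp Θ`.
-/

open MeasureTheory Metric Real Set Filter Topology Polynomial
open scoped ENNReal

namespace Pool.Agent.Helper83_Frankfurt

/-- the masses -/
noncomputable def cM (p : ℝ) (L : ℕ → ℝ) (j : ℕ) : ℝ := (1/2) ^ j * Real.exp (-(p * L j))

theorem cM_pos (p : ℝ) (L : ℕ → ℝ) (j : ℕ) : 0 < cM p L j := by unfold cM; positivity

theorem cM_le (p : ℝ) (hp : 0 < p) (L : ℕ → ℝ) (hL : ∀ j, 0 ≤ L j) (j : ℕ) :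
    cM p L j ≤ (1/2) ^ j := by
  unfold cM
  have : Real.exp (-(p * L j)) ≤ 1 := by
    rw [Real.exp_le_one_iff]
    have := mul_nonneg hp.le (hL j)
    linarith
  have h2 : (0:ℝ) ≤ (1/2) ^ j := by positivity
  nlinarith

theorem summable_cM (p : ℝ) (hp : 0 < p) (L : ℕ → ℝ) (hL : ∀ j, 0 ≤ L j) :
    Summable (cM p L) :=
  Summable.of_nonneg_of_le (fun j => (cM_pos p L j).le) (cM_le p hp L hL) summable_geometric_two

/-- `c_j * (A * exp L_j)^p = 2^{-j} * A^p`. -/
theorem cM_mul (p : ℝ) (L : ℕ → ℝ) (j : ℕ) {A : ℝ} (hA : 0 ≤ A) :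
    ENNReal.ofReal (cM p L j) * ENNReal.ofReal (A * Real.exp (L j)) ^ p =
      ENNReal.ofReal ((1/2) ^ j * A ^ p) ∨ p ≤ 0 := by
  by_cases hp : 0 < p
  · left
    rw [ENNReal.ofReal_rpow_of_nonneg (by positivity) hp.le, ← ENNReal.ofReal_mul (cM_pos p L j).le]
    congr 1
    rw [Real.mul_rpow hA (Real.exp_pos _).le, ← Real.exp_mul, cM]
    have : Real.exp (-(p * L j)) * Real.exp (L j * p) = 1 := by
      rw [← Real.exp_add]
      have : -(p * L j) + L j * p = 0 := by ring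
      rw [this, Real.exp_zero]
    calc (1 / 2) ^ j * Real.exp (-(p * L j)) * (A ^ p * Real.exp (L j * p))
        = (1/2) ^ j * A ^ p * (Real.exp (-(p * L j)) * Real.exp (L j * p)) := by ring
      _ = _ := by rw [this, mul_one]
  · right; exact not_lt.1 hp

/-- the norm is small if `|Φ| ≤ A e^{L_j}` for `j < N` and `|Φ| ≤ B e^{L_j}` for `j ≥ N`. -/
theorem eNorm_le_two {p : ℝ} (hp : 0 < p) {L : ℕ → ℝ} {Φ : ℂ → ℂ} {A B : ℝ}
    (hA : 0 ≤ A) (hB : 0 ≤ B) (N : ℕ)
    (h1 : ∀ j < N, ∀ z : ℂ, ‖z‖ ≤ rR j → ‖Φ z‖ ≤ A * Real.exp (L j))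
    (h2 : ∀ j, N ≤ j → ∀ z : ℂ, ‖z‖ ≤ rR j → ‖Φ z‖ ≤ B * Real.exp (L j)) :
    eNorm p (symMeasure (nuM (cM p L))) Φ ≤
      ENNReal.ofReal (2 * A ^ p + 2 * (1/2) ^ N * B ^ p) ^ (1 / p) := by
  have hm : ∀ j (z : ℂ), ‖z‖ ≤ rR j → ‖Φ z‖ ≤ (if j < N then A else B) * Real.exp (L j) := by
    intro j z hz
    split_ifs with h
    · exact h1 j h z hz
    · exact h2 j (not_lt.1 h) z hz
  refine le_trans (eNorm_le hp (c := cM p L) hm) ?_
  apply ENNReal.rpow_le_rpow _ (by positivity)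
  have hterm : ∀ j, ENNReal.ofReal (cM p L j) *
      ENNReal.ofReal ((if j < N then A else B) * Real.exp (L j)) ^ p =
      ENNReal.ofReal ((1/2) ^ j * (if j < N then A else B) ^ p) := by
    intro j
    rcases cM_mul p L j (A := if j < N then A else B) (by split_ifs <;> assumption) with h | h
    · exact h
    · linarith
  simp_rw [hterm]
  -- bound each term by the sum of two geometric terms
  set u : ℕ → ℝ := fun j => (1/2) ^ j * A ^ p + (if j < N then 0 else (1/2) ^ j * B ^ p) with hu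
  have hAp : 0 ≤ A ^ p := by positivity
  have hBp : 0 ≤ B ^ p := by positivity
  have hle : ∀ j, (1/2 : ℝ) ^ j * (if j < N then A else B) ^ p ≤ u j := by
    intro j
    simp only [hu]
    split_ifs
    · linarith
    · have : 0 ≤ (1/2 : ℝ) ^ j * A ^ p := by positivity
      linarith
  have hs1 : HasSum (fun j : ℕ => (1/2 : ℝ) ^ j * A ^ p) (2 * A ^ p) :=
    hasSum_geometric_two.mul_right _
  have hs2 : HasSum (fun j : ℕ => if j < N then (0:ℝ) else (1/2 : ℝ) ^ j * B ^ p)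
      (2 * (1/2) ^ N * B ^ p) := by
    rw [← hasSum_nat_add_iff' N]
    have hz : ∑ i ∈ Finset.range N, (if i < N then (0:ℝ) else (1/2 : ℝ) ^ i * B ^ p) = 0 := by
      apply Finset.sum_eq_zero
      intro i hi
      rw [if_pos (Finset.mem_range.1 hi)]
    rw [hz, sub_zero]
    have := hasSum_geometric_two.mul_right ((1/2 : ℝ) ^ N * B ^ p)
    rw [← mul_assoc] at this
    refine this.congr_fun ?_
    intro i
    rw [if_neg (by omega), pow_add]
    ring
  have hs := hs1.add hs2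
  have hnn : ∀ j, 0 ≤ u j := by
    intro j
    simp only [hu]
    split_ifs <;> positivity
  calc ∑' j, ENNReal.ofReal ((1/2) ^ j * (if j < N then A else B) ^ p)
      ≤ ∑' j, ENNReal.ofReal (u j) := ENNReal.tsum_le_tsum fun j => ENNReal.ofReal_le_ofReal (hle j)
    _ = ENNReal.ofReal (∑' j, u j) := (ENNReal.ofReal_tsum_of_nonneg hnn hs.summable).symm
    _ = ENNReal.ofReal (2 * A ^ p + 2 * (1/2) ^ N * B ^ p) := by rw [hs.tsum_eq]

/-- polynomial approximation of `exp (-P)` on the closed unit disc -/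
theorem exists_poly_exp (P : ℂ[X]) {δ : ℝ} (hδ : 0 < δ) :
    ∃ q : ℂ[X], ∀ z : ℂ, ‖z‖ ≤ 1 → ‖q.eval z - Complex.exp (-(P.eval z))‖ ≤ δ := by
  obtain ⟨M, hM0, hM⟩ := exists_bound P 1
  have h1 : Tendsto (fun n : ℕ => M ^ n / (n.factorial : ℝ) * 2) atTop (𝓝 0) := by
    have := (FloorSemiring.tendsto_pow_div_factorial_atTop M).mul_const 2
    simpa using this
  have h2 : Tendsto (fun n : ℕ => M / ((n : ℝ) + 1)) atTop (𝓝 0) :=
    tendsto_const_nhds.div_atTop (tendsto_atTop_add_const_right _ _ tendsto_natCast_atTop_atTop)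
  obtain ⟨n, hn1, hn2⟩ := ((h1.eventually (ge_mem_nhds hδ)).and
    (h2.eventually (ge_mem_nhds (by norm_num : (0:ℝ) < 1/2)))).exists
  refine ⟨∑ m ∈ Finset.range n, C ((m.factorial : ℂ)⁻¹) * (-P) ^ m, fun z hz => ?_⟩
  have hx : ‖-(P.eval z)‖ / (n.succ : ℝ) ≤ 1/2 := by
    rw [norm_neg]
    refine le_trans ?_ hn2
    push_cast
    gcongr
    exact hM z hz
  have h3 := Complex.exp_bound' hx
  have h4 : (∑ m ∈ Finset.range n, C ((m.factorial : ℂ)⁻¹) * (-P) ^ m).eval z =
      ∑ m ∈ Finset.range n, (-(P.eval z)) ^ m / (m.factorial : ℂ) := by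
    rw [eval_finsetSum]
    apply Finset.sum_congr rfl
    intro m _
    rw [eval_mul, eval_C, eval_pow, eval_neg]
    ring
  rw [h4, norm_sub_rev]
  refine le_trans h3 (le_trans ?_ hn1)
  rw [norm_neg]
  gcongr
  exact hM z hz

/-- maximum modulus on closed discs -/
theorem norm_le_of_circle {Θ : ℂ → ℂ} (hΘ : DifferentiableOn ℂ Θ (ball 0 1)) {r B : ℝ}
    (hr0 : 0 < r) (hr1 : r < 1) (hB : ∀ z : ℂ, ‖z‖ = r → ‖Θ z‖ ≤ B) {z : ℂ} (hz : ‖z‖ ≤ r) :
    ‖Θ z‖ ≤ B := by
  have hd : DiffContOnCl ℂ Θ (ball 0 r) := by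
    apply DifferentiableOn.diffContOnCl
    rw [closure_ball _ hr0.ne']
    exact hΘ.mono (closedBall_subset_ball hr1)
  apply Complex.norm_le_of_forall_mem_frontier_norm_le isBounded_ball hd (C := B)
  · intro w hw
    rw [frontier_ball _ hr0.ne'] at hw
    exact hB w (by simpa using hw)
  · rw [closure_ball _ hr0.ne']
    simpa using hz

theorem norm_exp_sub_one_le' {x : ℂ} (hx : ‖x‖ ≤ 1) : ‖Complex.exp x - 1‖ ≤ 2 * ‖x‖ :=
  Complex.norm_exp_sub_one_le hx

/-- **Criterion.** -/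
theorem weaklyInvertible_of {p : ℝ} (hp : 0 < p) {L : ℕ → ℝ} (hL : ∀ j, 0 ≤ L j) {Θ : ℂ → ℂ}
    (hΘ : DifferentiableOn ℂ Θ (ball 0 1)) {K : ℝ} (hK : 0 ≤ K) (P : ℕ → ℂ[X]) (hP0 : P 0 = 0)
    (h1 : ∀ N, ∀ j < N, ∀ z : ℂ, ‖z‖ ≤ rR j → ‖Θ z - (P N).eval z‖ ≤ 2 * (1/2) ^ N)
    (h2 : ∀ N j, N ≤ j → ∀ z : ℂ, ‖z‖ = rR j → (Θ z - (P N).eval z).re ≤ L j + K) :
    WeaklyInvertible p (symMeasure (nuM (cM p L))) (fun z => Complex.exp (Θ z)) := by
  have hexpd : DifferentiableOn ℂ (fun z => Complex.exp (Θ z)) (ball 0 1) := hΘ.cexp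
  have hexpK : 1 ≤ Real.exp K := Real.one_le_exp hK
  -- bound of `exp (Θ - P_N)` on `|z| ≤ r_j`, `j ≥ N`
  have hb : ∀ N j, N ≤ j → ∀ z : ℂ, ‖z‖ ≤ rR j →
      ‖Complex.exp (Θ z - (P N).eval z)‖ ≤ Real.exp K * Real.exp (L j) := by
    intro N j hNj z hz
    have hd : DifferentiableOn ℂ (fun z => Complex.exp (Θ z - (P N).eval z)) (ball 0 1) :=
      (hΘ.sub (P N).differentiable.differentiableOn).cexp
    apply norm_le_of_circle hd (rR_pos j) (rR_lt_one j) _ hz
    intro w hw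
    rw [Complex.norm_exp, ← Real.exp_add]
    apply Real.exp_le_exp.2
    linarith [h2 N j hNj w hw]
  have hb0 : ∀ j (z : ℂ), ‖z‖ ≤ rR j → ‖Complex.exp (Θ z)‖ ≤ Real.exp K * Real.exp (L j) := by
    intro j z hz
    have := hb 0 j (Nat.zero_le _) z hz
    rwa [hP0, eval_zero, sub_zero] at this
  refine ⟨⟨hexpd, ?_⟩, ?_⟩
  · -- finite norm
    have := eNorm_le_two hp (L := L) (Φ := fun z => Complex.exp (Θ z)) (A := 0) (B := Real.exp K)
      le_rfl (Real.exp_pos _).le 0 (by intro j hj; omega) (fun j _ z hz => hb0 j z hz)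
    refine lt_of_le_of_lt this ?_
    exact ENNReal.rpow_lt_top_of_nonneg (by positivity) ENNReal.ofReal_ne_top
  · -- the approximating polynomials
    have hδ : ∀ N : ℕ, (0:ℝ) < (1/2) ^ N := fun N => by positivity
    choose q hq using fun N : ℕ => exists_poly_exp (P N) (hδ N)
    refine ⟨q, ?_⟩
    -- the bound
    have hbound : ∀ N : ℕ, 1 ≤ N →
        eNorm p (symMeasure (nuM (cM p L))) (fun z => (q N).eval z * Complex.exp (Θ z) - 1) ≤
        ENNReal.ofReal (2 * ((1/2) ^ N * (Real.exp K + 4)) ^ p +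
          2 * (1/2) ^ N * (3 * Real.exp K) ^ p) ^ (1 / p) := by
      intro N hN
      have hexpL : ∀ j, 1 ≤ Real.exp (L j) := fun j => Real.one_le_exp (hL j)
      have hdecomp : ∀ z : ℂ, (q N).eval z * Complex.exp (Θ z) - 1 =
          ((q N).eval z - Complex.exp (-((P N).eval z))) * Complex.exp (Θ z) +
          (Complex.exp (Θ z - (P N).eval z) - 1) := by
        intro z
        rw [sub_mul, ← Complex.exp_add]
        have : -((P N).eval z) + Θ z = Θ z - (P N).eval z := by ring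
        rw [this]; ring
      have hfirst : ∀ j (z : ℂ), ‖z‖ ≤ rR j →
          ‖((q N).eval z - Complex.exp (-((P N).eval z))) * Complex.exp (Θ z)‖ ≤
            (1/2) ^ N * (Real.exp K * Real.exp (L j)) := by
        intro j z hz
        rw [norm_mul]
        exact mul_le_mul (hq N z (hz.trans (rR_lt_one j).le)) (hb0 j z hz) (norm_nonneg _)
          (by positivity)
      apply eNorm_le_two hp (by positivity) (by positivity) N
      · intro j hj z hz
        rw [hdecomp]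
        refine le_trans (norm_add_le _ _) ?_
        have e1 := hfirst j z hz
        have e2 := h1 N j hj z hz
        have e3 : ‖Θ z - (P N).eval z‖ ≤ 1 := by
          refine le_trans e2 ?_
          have : ((1/2 : ℝ)) ^ N ≤ (1/2) ^ 1 :=
            pow_le_pow_of_le_one (by norm_num) (by norm_num) hN
          linarith
        have e4 := norm_exp_sub_one_le' e3
        have e5 : (1/2 : ℝ) ^ N * 4 ≤ (1/2 : ℝ) ^ N * 4 * Real.exp (L j) := by
          have := hexpL j
          have h0 : (0:ℝ) ≤ (1/2 : ℝ) ^ N * 4 := by positivity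
          nlinarith
        calc _ ≤ (1/2 : ℝ) ^ N * (Real.exp K * Real.exp (L j)) + (1/2 : ℝ) ^ N * 4 := by linarith
          _ ≤ (1/2 : ℝ) ^ N * (Real.exp K * Real.exp (L j)) +
              (1/2 : ℝ) ^ N * 4 * Real.exp (L j) := by linarith
          _ = _ := by ring
      · intro j hj z hz
        rw [hdecomp]
        refine le_trans (norm_add_le _ _) ?_
        have e1 := hfirst j z hz
        have e2 := hb N j hj z hz
        have e3 : ‖Complex.exp (Θ z - (P N).eval z) - 1‖ ≤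
            Real.exp K * Real.exp (L j) + 1 := by
          refine le_trans (norm_sub_le _ _) ?_
          rw [norm_one]; linarith
        have e4 : (1/2 : ℝ) ^ N ≤ 1 := pow_le_one₀ (by norm_num) (by norm_num)
        have e5 := hexpL j
        have e6 : 1 ≤ Real.exp K * Real.exp (L j) := by nlinarith
        nlinarith
    have hlim : Tendsto (fun N : ℕ => ENNReal.ofReal (2 * ((1/2) ^ N * (Real.exp K + 4)) ^ p +
          2 * (1/2) ^ N * (3 * Real.exp K) ^ p) ^ (1 / p)) atTop (𝓝 0) := by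
      have hgeo : Tendsto (fun N : ℕ => ((1/2 : ℝ)) ^ N) atTop (𝓝 0) :=
        tendsto_pow_atTop_nhds_zero_of_lt_one (by norm_num) (by norm_num)
      have t1 : Tendsto (fun N : ℕ => ((1/2 : ℝ)) ^ N * (Real.exp K + 4)) atTop (𝓝 0) := by
        simpa using hgeo.mul_const (Real.exp K + 4)
      have t2 : Tendsto (fun N : ℕ => (((1/2 : ℝ)) ^ N * (Real.exp K + 4)) ^ p) atTop (𝓝 0) := by
        have := t1.rpow_const (p := p) (Or.inr hp.le)
        rwa [Real.zero_rpow hp.ne'] at this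
      have t3 : Tendsto (fun N : ℕ => 2 * ((1/2 : ℝ) ^ N * (Real.exp K + 4)) ^ p +
          2 * (1/2) ^ N * (3 * Real.exp K) ^ p) atTop (𝓝 0) := by
        have h := (t2.const_mul 2).add ((hgeo.const_mul 2).mul_const ((3 * Real.exp K) ^ p))
        simpa using h
      have t4 := ENNReal.tendsto_ofReal t3
      rw [ENNReal.ofReal_zero] at t4
      have t5 := t4.ennrpow_const (1 / p)
      rwa [ENNReal.zero_rpow_of_pos (by positivity)] at t5
    refine tendsto_of_tendsto_of_tendsto_of_le_of_le' tendsto_const_nhds hlim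
      (Eventually.of_forall fun _ => zero_le) ?_
    filter_upwards [eventually_ge_atTop 1] with N hN
    exact hbound N hN

end Pool.Agent.Helper83_Frankfurt
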