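import Mathlib
import Pool.Agent.Helper83_Frankfurt.SubMean
import Pool.Agent.Helper83_Frankfurt.Criterion

/-!
Rigidity of `f = exp Φ`: failure of weak invertibility.
-/

open MeasureTheory Metric Real Set Filter Topology Polynomial
open scoped ENNReal

namespace Pool.Agent.Helper83_Frankfurt

/-- Poisson bound for holomorphic functions. -/
theorem norm_le_circleAverage {g : ℂ → ℂ} {R : ℝ} (hg : DiffContOnCl ℂ g (ball 0 R))
    {w : ℂ} (hw : ‖w‖ < R) :
    ‖g w‖ ≤ (R + ‖w‖) / (R - ‖w‖) * circleAverage (fun z => ‖g z‖) 0 R := by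
  have hR : 0 < R := lt_of_le_of_lt (norm_nonneg w) hw
  have hwb : w ∈ ball (0:ℂ) R := by simpa using hw
  have key := hg.circleAverage_re_herglotzRieszKernel_smul hwb
  have hcont : ContinuousOn g (sphere 0 R) := by
    apply hg.continuousOn.mono
    rw [closure_ball _ hR.ne']
    exact sphere_subset_closedBall
  calc ‖g w‖ = ‖circleAverage (Complex.re ∘ herglotzRieszKernel 0 w • g) 0 R‖ := by
        rw [key]
    _ ≤ circleAverage (fun z => ‖(Complex.re ∘ herglotzRieszKernel 0 w • g) z‖) 0 R :=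
        norm_circleAverage_le
    _ ≤ circleAverage (fun z => (R + ‖w‖) / (R - ‖w‖) * ‖g z‖) 0 R := by
        apply circleAverage_mono
        · apply ContinuousOn.circleIntegrable hR.le
          apply ContinuousOn.norm
          apply ContinuousOn.smul _ hcont
          apply Complex.continuous_re.comp_continuousOn
          have := continuousOn_herglotzRieszKernel_sphere (R := R) hwb
          rwa [abs_of_pos hR] at this
        · apply ContinuousOn.circleIntegrable hR.le
          exact ContinuousOn.mul continuousOn_const hcont.norm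
        · intro z hz
          rw [abs_of_pos hR] at hz
          have hk1 := re_herglotzRieszKernel_le hz hwb
          have hk2 := le_re_herglotzRieszKernel hz hwb
          simp only [sub_zero] at hk1 hk2
          have hk0 : 0 ≤ (R - ‖w‖) / (R + ‖w‖) :=
            div_nonneg (by linarith) (by positivity)
          have hker : (Complex.re ∘ herglotzRieszKernel 0 w) z = ((z + w) / (z - w)).re := by
            simp [herglotzRieszKernel_def]
          simp only [Pi.smul_apply', hker, norm_smul, Real.norm_eq_abs]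
          rw [abs_of_nonneg (le_trans hk0 hk2)]
          exact mul_le_mul_of_nonneg_right hk1 (by positivity)
    _ = (R + ‖w‖) / (R - ‖w‖) * circleAverage (fun z => ‖g z‖) 0 R := by
        rw [← smul_eq_mul, ← circleAverage_fun_smul]
        rfl

/-- the polynomial `((1+X)/2)^3` has nonpositive real part on the unit circle where `Re X ≤ 1/2`. -/
theorem omega_circle {x : ℂ} (hx : ‖x‖ = 1) :
    (((1 + x) / 2) ^ 3).re ≤ 1 ∧ (x.re < 1/2 → (((1 + x) / 2) ^ 3).re ≤ 0) := by
  have hx2 : x.re * x.re + x.im * x.im = 1 := by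
    rw [← Complex.normSq_apply, Complex.normSq_eq_norm_sq, hx]; norm_num
  have hre : (((1 + x) / 2) ^ 3).re = (1/2) * (x.re - 1/2) * (x.re + 1) ^ 2 := by
    have h1 : (((1 + x) / 2) ^ 3) = (1 + x) * (1 + x) * (1 + x) * (((1/8 : ℝ)) : ℂ) := by
      push_cast; ring
    rw [h1, Complex.re_mul_ofReal]
    simp only [Complex.mul_re, Complex.mul_im, Complex.add_re, Complex.add_im, Complex.one_re,
      Complex.one_im]
    have h3 : x.im * x.im = 1 - x.re * x.re := by linarith
    linear_combination (-(3/8) * (1 + x.re)) * h3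
  have hxm : x.re ≤ 1 := by
    have := Complex.re_le_norm x
    rwa [hx] at this
  have hxm' : -1 ≤ x.re := by
    have := abs_le.1 (Complex.abs_re_le_norm x)
    rw [hx] at this
    exact this.1
  constructor
  · rw [hre]
    have : (x.re + 1) ^ 2 ≤ 4 := by nlinarith
    nlinarith [sq_nonneg (x.re + 1)]
  · intro h
    rw [hre]
    have := sq_nonneg (x.re + 1)
    nlinarith

theorem omega_small {x : ℂ} (hx : ‖x‖ ≤ 1/8) : 1/16 ≤ (((1 + x) / 2) ^ 3).re := by
  have h1 : (((1 + x) / 2) ^ 3) = (((1/8 : ℝ)) : ℂ) + (((1/8 : ℝ)) : ℂ) * (3 * x + 3 * x ^ 2 + x ^ 3) := by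
    push_cast; ring
  have h2 : ‖3 * x + 3 * x ^ 2 + x ^ 3‖ ≤ 1/2 := by
    have e1 := norm_add_le (3 * x + 3 * x ^ 2) (x ^ 3)
    have e2 := norm_add_le (3 * x) (3 * x ^ 2)
    have e3 : ‖(3 * x : ℂ)‖ = 3 * ‖x‖ := by rw [norm_mul]; norm_num
    have e4 : ‖(3 * x ^ 2 : ℂ)‖ = 3 * ‖x‖ ^ 2 := by rw [norm_mul, norm_pow]; norm_num
    have e5 : ‖x ^ 3‖ = ‖x‖ ^ 3 := norm_pow _ _
    have e6 : ‖x‖ ^ 2 ≤ (1/8) ^ 2 := pow_le_pow_left₀ (norm_nonneg _) hx 2
    have e7 : ‖x‖ ^ 3 ≤ (1/8) ^ 3 := pow_le_pow_left₀ (norm_nonneg _) hx 3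
    rw [e3, e4] at e2
    rw [e5] at e1
    norm_num at e6 e7
    linarith
  rw [h1, Complex.add_re, Complex.ofReal_re, Complex.re_ofReal_mul]
  have h3 := abs_le.1 (Complex.abs_re_le_norm (3 * x + 3 * x ^ 2 + x ^ 3))
  linarith

theorem rpow_le_aux {p : ℝ} (hp : 0 < p) (a : ℂ) :
    ‖a‖ ^ p ≤ 2 ^ p * (‖a - 1‖ ^ p + 1) := by
  have h1 : ‖a‖ ≤ 2 * max ‖a - 1‖ 1 := by
    have h := norm_add_le (a - 1) 1
    rw [sub_add_cancel, norm_one] at h
    have h2 := le_max_left ‖a - 1‖ 1
    have h3 := le_max_right ‖a - 1‖ (1:ℝ)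
    linarith
  calc ‖a‖ ^ p ≤ (2 * max ‖a - 1‖ 1) ^ p := Real.rpow_le_rpow (norm_nonneg _) h1 hp.le
    _ = 2 ^ p * (max ‖a - 1‖ 1) ^ p := Real.mul_rpow (by norm_num) (by positivity)
    _ ≤ 2 ^ p * (‖a - 1‖ ^ p + 1) := by
        apply mul_le_mul_of_nonneg_left _ (by positivity)
        rcases le_total ‖a - 1‖ 1 with h | h
        · rw [max_eq_right h, Real.one_rpow]
          have : 0 ≤ ‖a - 1‖ ^ p := by positivity
          linarith
        · rw [max_eq_left h]
          linarith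

section

variable {p : ℝ} {L : ℕ → ℝ} {n : ℕ → ℕ} {Φ : ℂ → ℂ}

/-- Consequence of the norm bound on one circle. -/
theorem circle_bound (hp : 0 < p) (hL : ∀ j, 0 ≤ L j)
    (hΦ : DifferentiableOn ℂ Φ (ball 0 1)) {q : ℂ[X]}
    (hq : eNorm p (symMeasure (nuM (cM p L))) (fun z => q.eval z * Complex.exp (Φ z) - 1) ≤ 1)
    (j : ℕ) :
    cM p L j * circleAverage (fun z => ‖q.eval z * Complex.exp (Φ z)‖ ^ p) 0 (rR j) ≤
      2 ^ p * 2 := by
  have hsph : sphere (0:ℂ) (rR j) ⊆ ball 0 1 := by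
    intro z hz
    have : ‖z‖ = rR j := by simpa using hz
    rw [mem_ball_zero_iff, this]
    exact rR_lt_one j
  have hcontΦ : ContinuousOn (fun z => q.eval z * Complex.exp (Φ z)) (ball 0 1) :=
    (q.continuous.continuousOn).mul (hΦ.continuousOn.cexp)
  have h1 := le_eNorm hp (cM_pos p L)
    (Φ := fun z => q.eval z * Complex.exp (Φ z) - 1) (hcontΦ.sub continuousOn_const) j
  have h2 : ENNReal.ofReal (cM p L j * circleAverage
      (fun z => ‖q.eval z * Complex.exp (Φ z) - 1‖ ^ p) 0 (rR j)) ≤ 1 := by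
    refine le_trans h1 ?_
    calc _ ≤ (1 : ℝ≥0∞) ^ p := ENNReal.rpow_le_rpow hq hp.le
      _ = 1 := ENNReal.one_rpow _
  have h3 : cM p L j * circleAverage
      (fun z => ‖q.eval z * Complex.exp (Φ z) - 1‖ ^ p) 0 (rR j) ≤ 1 := by
    rwa [ENNReal.ofReal_le_one] at h2
  have hint : CircleIntegrable (fun z => ‖q.eval z * Complex.exp (Φ z) - 1‖ ^ p) 0 (rR j) := by
    apply ContinuousOn.circleIntegrable (rR_pos j).le
    apply ContinuousOn.rpow_const _ (fun _ _ => Or.inr hp.le)
    exact ((hcontΦ.mono hsph).sub continuousOn_const).norm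
  have hint2 : CircleIntegrable (fun z => ‖q.eval z * Complex.exp (Φ z)‖ ^ p) 0 (rR j) := by
    apply ContinuousOn.circleIntegrable (rR_pos j).le
    apply ContinuousOn.rpow_const _ (fun _ _ => Or.inr hp.le)
    exact (hcontΦ.mono hsph).norm
  have h4 : circleAverage (fun z => ‖q.eval z * Complex.exp (Φ z)‖ ^ p) 0 (rR j) ≤
      2 ^ p * (circleAverage (fun z => ‖q.eval z * Complex.exp (Φ z) - 1‖ ^ p) 0 (rR j) + 1) := by
    calc _ ≤ circleAverage (fun z => 2 ^ p * (‖q.eval z * Complex.exp (Φ z) - 1‖ ^ p + 1)) 0 (rR j) := by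
          apply circleAverage_mono hint2
          · apply ContinuousOn.circleIntegrable (rR_pos j).le
            apply ContinuousOn.mul continuousOn_const
            apply ContinuousOn.add _ continuousOn_const
            apply ContinuousOn.rpow_const _ (fun _ _ => Or.inr hp.le)
            exact ((hcontΦ.mono hsph).sub continuousOn_const).norm
          · intro z _
            exact rpow_le_aux hp _
      _ = _ := by
          have e1 : circleAverage (fun z => (2:ℝ) ^ p * (‖q.eval z * Complex.exp (Φ z) - 1‖ ^ p + 1)) 0 (rR j)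
              = (2:ℝ) ^ p • circleAverage (fun z => (‖q.eval z * Complex.exp (Φ z) - 1‖ ^ p + 1)) 0 (rR j) := by
            rw [← circleAverage_fun_smul]; rfl
          rw [e1, smul_eq_mul]
          congr 1
          rw [circleAverage_fun_add hint (continuousOn_const.circleIntegrable (rR_pos j).le),
            circleAverage_const]
  have hc := cM_pos p L j
  have hc1 : cM p L j ≤ 1 := (cM_le p hp L hL j).trans (pow_le_one₀ (by norm_num) (by norm_num))
  have h2p : (0:ℝ) < 2 ^ p := by positivity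
  calc cM p L j * circleAverage (fun z => ‖q.eval z * Complex.exp (Φ z)‖ ^ p) 0 (rR j)
      ≤ cM p L j * (2 ^ p * (circleAverage
        (fun z => ‖q.eval z * Complex.exp (Φ z) - 1‖ ^ p) 0 (rR j) + 1)) :=
        mul_le_mul_of_nonneg_left h4 hc.le
    _ = 2 ^ p * (cM p L j * circleAverage
        (fun z => ‖q.eval z * Complex.exp (Φ z) - 1‖ ^ p) 0 (rR j) + cM p L j) := by ring
    _ ≤ 2 ^ p * 2 := by
        apply mul_le_mul_of_nonneg_left _ h2p.le
        linarith

/-- The constant in the recursion. -/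
noncomputable def Cst (p : ℝ) : ℝ := 8 * (1 + 2 ^ p * 2 * Real.exp (2 * p))

theorem Cst_ge (p : ℝ) : 8 ≤ Cst p := by
  unfold Cst
  have : 0 < (2:ℝ) ^ p * 2 * Real.exp (2 * p) := by positivity
  linarith

theorem kernel_const (j : ℕ) {w : ℂ} (hw : ‖w‖ ≤ sR j) :
    (rR j + ‖w‖) / (rR j - ‖w‖) ≤ 8 * 4 ^ j := by
  have h1 := sR_lt_rR j
  have h2 := rR_lt_one j
  have h3 := norm_nonneg w
  have h0 := rR_pos j
  rw [div_le_iff₀ (by linarith)]
  have h4 : rR j - sR j = (1/2) ^ (2 * j + 2) := by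
    unfold rR sR
    have : (1/2 : ℝ) ^ (2 * j + 1) = 2 * (1/2) ^ (2 * j + 2) := by
      rw [pow_succ (1/2 : ℝ) (2 * j + 1)]; ring
    rw [this]; ring
  have h5 : (8 * 4 ^ j : ℝ) * (1/2) ^ (2 * j + 2) = 2 := by
    rw [pow_add, pow_mul]
    have : (1/2 : ℝ) ^ 2 = 1/4 := by norm_num
    rw [this]
    have : (4 : ℝ) ^ j * (1/4) ^ j = 1 := by rw [← mul_pow]; norm_num
    linear_combination 2 * this
  have h6 : (8 * 4 ^ j : ℝ) * (rR j - sR j) = 2 := by rw [h4, h5]
  have h7 : (0:ℝ) < 8 * 4 ^ j := by positivity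
  nlinarith

/-- One step of the recursion (two-constants estimate). -/
theorem rec_step (hp : 0 < p) (hL : ∀ j, 0 ≤ L j)
    (hΦ : DifferentiableOn ℂ Φ (ball 0 1)) (j : ℕ) (hn8 : (sR j / rR j) ^ n j ≤ 1/8)
    (hE : ∀ z : ℂ, ‖z‖ = rR j → 1/2 ≤ ((z / rR j) ^ n j).re → L j - 2 ≤ (Φ z).re)
    {q : ℂ[X]}
    (hq : eNorm p (symMeasure (nuM (cM p L))) (fun z => q.eval z * Complex.exp (Φ z) - 1) ≤ 1)
    {T : ℝ} (hT : 0 ≤ T) (hqT : ∀ z : ℂ, ‖z‖ ≤ rR j → ‖q.eval z‖ ≤ Real.exp T)
    {w : ℂ} (hw : ‖w‖ ≤ sR j) :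
    ‖q.eval w‖ ≤ Real.exp ((Real.log (Cst p) + j * Real.log 8) / p + 15/16 * T) := by
  have hr0 := rR_pos j
  have hr1 := rR_lt_one j
  have hrc : (rR j : ℂ) ≠ 0 := by exact_mod_cast hr0.ne'
  set E : ℂ → ℂ := fun z => -((T : ℂ) * (1 - ((1 + (z / rR j) ^ n j) / 2) ^ 3)) with hEdef
  have hEd : Differentiable ℂ E := by
    rw [hEdef]
    fun_prop
  have hEre : ∀ z, (E z).re = -(T * (1 - (((1 + (z / rR j) ^ n j) / 2) ^ 3).re)) := by
    intro z
    rw [hEdef]
    simp only [Complex.neg_re, Complex.re_ofReal_mul, Complex.sub_re, Complex.one_re]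
  have hcb := circle_bound hp hL hΦ hq j
  have hc := cM_pos p L j
  have hwlt : ‖w‖ < rR j := lt_of_le_of_lt hw (sR_lt_rR j)
  have hsub := subMean (q := q) hEd hp hwlt
  -- pointwise bound on the circle
  set D : ℝ := 2 ^ j * Real.exp (2 * p) * cM p L j with hD
  have hD0 : 0 ≤ D := by positivity
  have hpt : ∀ z : ℂ, ‖z‖ = rR j → ‖q.eval z * Complex.exp (E z)‖ ^ p ≤
      1 + D * ‖q.eval z * Complex.exp (Φ z)‖ ^ p := by
    intro z hz
    have hX : ‖(z / rR j) ^ n j‖ = 1 := by
      rw [norm_pow, norm_div, Complex.norm_real, Real.norm_eq_abs, abs_of_pos hr0, hz,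
        div_self hr0.ne', one_pow]
    obtain ⟨ho1, ho2⟩ := omega_circle hX
    rcases lt_or_ge ((z / rR j) ^ n j).re (1/2) with h | h
    · have h1 : ‖q.eval z * Complex.exp (E z)‖ ≤ 1 := by
        rw [norm_mul, Complex.norm_exp, hEre]
        have ho := ho2 h
        have e1 : -(T * (1 - (((1 + (z / rR j) ^ n j) / 2) ^ 3).re)) ≤ -T := by nlinarith
        calc ‖q.eval z‖ * Real.exp (-(T * (1 - (((1 + (z / rR j) ^ n j) / 2) ^ 3).re)))
            ≤ Real.exp T * Real.exp (-T) :=
              mul_le_mul (hqT z hz.le) (Real.exp_le_exp.2 e1) (Real.exp_pos _).le (Real.exp_pos _).le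
          _ = 1 := by rw [← Real.exp_add]; simp
      have h2 : ‖q.eval z * Complex.exp (E z)‖ ^ p ≤ 1 :=
        Real.rpow_le_one (norm_nonneg _) h1 hp.le
      have h3 : 0 ≤ D * ‖q.eval z * Complex.exp (Φ z)‖ ^ p := by positivity
      linarith
    · have hb := hE z hz h
      have h1 : ‖q.eval z * Complex.exp (E z)‖ ≤ ‖q.eval z‖ := by
        rw [norm_mul, Complex.norm_exp, hEre]
        have e1 : -(T * (1 - (((1 + (z / rR j) ^ n j) / 2) ^ 3).re)) ≤ 0 := by nlinarith
        have e2 := Real.exp_le_one_iff.2 e1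
        have := norm_nonneg (q.eval z)
        nlinarith
      have h2 : ‖q.eval z‖ ^ p ≤ D * ‖q.eval z * Complex.exp (Φ z)‖ ^ p := by
        rw [norm_mul, Complex.norm_exp, Real.mul_rpow (norm_nonneg _) (Real.exp_pos _).le,
          ← Real.exp_mul]
        have e1 : 1 ≤ D * Real.exp ((Φ z).re * p) := by
          rw [hD, cM]
          have e2 : (2:ℝ) ^ j * Real.exp (2 * p) * ((1 / 2) ^ j * Real.exp (-(p * L j))) *
              Real.exp ((Φ z).re * p) =
              ((2:ℝ) ^ j * (1/2) ^ j) * Real.exp (2 * p + (-(p * L j)) + (Φ z).re * p) := by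
            rw [Real.exp_add, Real.exp_add]; ring
          have e3 : (2:ℝ) ^ j * (1/2) ^ j = 1 := by rw [← mul_pow]; norm_num
          rw [e2, e3, one_mul]
          apply Real.one_le_exp
          nlinarith
        have e4 : 0 ≤ ‖q.eval z‖ ^ p := by positivity
        nlinarith
      have h3 := Real.rpow_le_rpow (norm_nonneg _) h1 hp.le
      linarith
  have hsph : sphere (0:ℂ) (rR j) ⊆ ball 0 1 := by
    intro z hz
    have : ‖z‖ = rR j := by simpa using hz
    rw [mem_ball_zero_iff, this]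
    exact hr1
  have hint2 : CircleIntegrable (fun z => ‖q.eval z * Complex.exp (Φ z)‖ ^ p) 0 (rR j) := by
    apply ContinuousOn.circleIntegrable hr0.le
    apply ContinuousOn.rpow_const _ (fun _ _ => Or.inr hp.le)
    exact ((q.continuous.continuousOn).mul ((hΦ.continuousOn.mono hsph).cexp)).norm
  have hint1 : CircleIntegrable (fun z => ‖q.eval z * Complex.exp (E z)‖ ^ p) 0 (rR j) := by
    apply ContinuousOn.circleIntegrable hr0.le
    apply ContinuousOn.rpow_const _ (fun _ _ => Or.inr hp.le)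
    exact ((q.continuous.mul hEd.continuous.cexp).norm).continuousOn
  have hint3 : CircleIntegrable (fun z => D * ‖q.eval z * Complex.exp (Φ z)‖ ^ p) 0 (rR j) := by
    apply ContinuousOn.circleIntegrable hr0.le
    apply ContinuousOn.mul continuousOn_const
    apply ContinuousOn.rpow_const _ (fun _ _ => Or.inr hp.le)
    exact ((q.continuous.continuousOn).mul ((hΦ.continuousOn.mono hsph).cexp)).norm
  have hint4 : CircleIntegrable (fun _ : ℂ => (1:ℝ)) 0 (rR j) :=
    continuousOn_const.circleIntegrable hr0.le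
  have hav : circleAverage (fun z => ‖q.eval z * Complex.exp (E z)‖ ^ p) 0 (rR j) ≤
      1 + 2 ^ j * Real.exp (2 * p) * (2 ^ p * 2) := by
    calc _ ≤ circleAverage (fun z => 1 + D * ‖q.eval z * Complex.exp (Φ z)‖ ^ p) 0 (rR j) := by
          apply circleAverage_mono hint1
          · exact hint4.add hint3
          · intro z hz
            rw [abs_of_pos hr0] at hz
            exact hpt z (by simpa using hz)
      _ = 1 + D * circleAverage (fun z => ‖q.eval z * Complex.exp (Φ z)‖ ^ p) 0 (rR j) := by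
          rw [circleAverage_fun_add hint4 hint3, circleAverage_const]
          congr 1
          rw [← smul_eq_mul, ← circleAverage_fun_smul]
          rfl
      _ = 1 + 2 ^ j * Real.exp (2 * p) * (cM p L j *
            circleAverage (fun z => ‖q.eval z * Complex.exp (Φ z)‖ ^ p) 0 (rR j)) := by
          rw [hD]; ring
      _ ≤ _ := by
          gcongr
  -- combine
  have hker := kernel_const j hw
  have hker0 : 0 ≤ (rR j + ‖w‖) / (rR j - ‖w‖) := by
    apply div_nonneg (by positivity)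
    linarith
  have hmain : ‖q.eval w * Complex.exp (E w)‖ ^ p ≤ Cst p * 8 ^ j := by
    calc _ ≤ (rR j + ‖w‖) / (rR j - ‖w‖) *
          circleAverage (fun z => ‖q.eval z * Complex.exp (E z)‖ ^ p) 0 (rR j) := hsub
      _ ≤ (8 * 4 ^ j) * (1 + 2 ^ j * Real.exp (2 * p) * (2 ^ p * 2)) := by
          apply mul_le_mul hker hav _ (by positivity)
          apply circleAverage_nonneg_of_nonneg
          intro z _
          positivity
      _ ≤ (8 * 4 ^ j) * (2 ^ j * (1 + Real.exp (2 * p) * (2 ^ p * 2))) := by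
          apply mul_le_mul_of_nonneg_left _ (by positivity)
          have : (1:ℝ) ≤ 2 ^ j := one_le_pow₀ (by norm_num)
          nlinarith [Real.exp_pos (2 * p)]
      _ = Cst p * 8 ^ j := by
          have : (8:ℝ) ^ j = 4 ^ j * 2 ^ j := by rw [← mul_pow]; norm_num
          rw [Cst, this]; ring
  have hCpos : 0 < Cst p := by linarith [Cst_ge p]
  have hroot : ‖q.eval w * Complex.exp (E w)‖ ≤
      Real.exp ((Real.log (Cst p) + j * Real.log 8) / p) := by
    have h1 : Cst p * 8 ^ j = Real.exp ((Real.log (Cst p) + j * Real.log 8) / p) ^ p := by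
      rw [← Real.exp_mul, div_mul_cancel₀ _ hp.ne', Real.exp_add, Real.exp_log hCpos,
        mul_comm (j : ℝ), Real.exp_mul, Real.exp_log (by norm_num), Real.rpow_natCast]
    rw [h1] at hmain
    exact (Real.rpow_le_rpow_iff (norm_nonneg _) (Real.exp_pos _).le hp).1 hmain
  -- undo the exponential factor
  have hXw : ‖(w / rR j) ^ n j‖ ≤ 1/8 := by
    refine le_trans ?_ hn8
    rw [norm_pow, norm_div, Complex.norm_real, Real.norm_eq_abs, abs_of_pos hr0]
    gcongr
  have hom := omega_small hXw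
  have hq2 : ‖q.eval w‖ = ‖q.eval w * Complex.exp (E w)‖ * Real.exp (-(E w).re) := by
    rw [norm_mul, Complex.norm_exp, mul_assoc, ← Real.exp_add]
    simp
  rw [hq2, Real.exp_add]
  apply mul_le_mul hroot _ (Real.exp_pos _).le (Real.exp_pos _).le
  apply Real.exp_le_exp.2
  rw [hEre]
  nlinarith

/-- The uniform bound for all polynomials `q` with `‖q f - 1‖ ≤ 1`. -/
theorem uniform_bound (hp : 0 < p) (hL : ∀ j, 0 ≤ L j)
    (hΦ : DifferentiableOn ℂ Φ (ball 0 1)) (hn8 : ∀ j, (sR j / rR j) ^ n j ≤ 1/8)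
    (hE : ∀ j, ∀ z : ℂ, ‖z‖ = rR j → 1/2 ≤ ((z / rR j) ^ n j).re → L j - 2 ≤ (Φ z).re) :
    ∃ α β : ℝ, 0 ≤ α ∧ 0 ≤ β ∧ ∀ q : ℂ[X],
      eNorm p (symMeasure (nuM (cM p L))) (fun z => q.eval z * Complex.exp (Φ z) - 1) ≤ 1 →
      ∀ j (z : ℂ), ‖z‖ ≤ sR j → ‖q.eval z‖ ≤ Real.exp (α + β * j) := by
  set a : ℝ := Real.log (Cst p) / p with ha
  set b : ℝ := Real.log 8 / p with hb
  have ha0 : 0 ≤ a := div_nonneg (Real.log_nonneg (by linarith [Cst_ge p])) hp.le
  have hb0 : 0 ≤ b := div_nonneg (Real.log_nonneg (by norm_num)) hp.le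
  refine ⟨16 * a + 240 * b, 16 * b, by positivity, by positivity, ?_⟩
  intro q hq
  obtain ⟨M, hM0, hM⟩ := exists_bound q 1
  -- a crude global bound
  set T₀ : ℝ := M with hT₀
  have hT₀' : ∀ z : ℂ, ‖z‖ ≤ 1 → ‖q.eval z‖ ≤ Real.exp T₀ := fun z hz =>
    (hM z hz).trans (by linarith [Real.add_one_le_exp M])
  have hind : ∀ k : ℕ, ∀ j (z : ℂ), ‖z‖ ≤ sR j →
      ‖q.eval z‖ ≤ Real.exp (16 * a + 240 * b + 16 * b * j + (15/16) ^ k * T₀) := by
    intro k
    induction k with
    | zero =>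
      intro j z hz
      refine (hT₀' z (hz.trans (sR_lt_one j).le)).trans (Real.exp_le_exp.2 ?_)
      have : 0 ≤ 16 * a + 240 * b + 16 * b * j := by positivity
      simp only [pow_zero, one_mul]
      linarith
    | succ k ih =>
      intro j z hz
      have hT : 0 ≤ 16 * a + 240 * b + 16 * b * (j + 1 : ℕ) + (15/16) ^ k * T₀ := by positivity
      have h := rec_step (n := n) hp hL hΦ j (hn8 j) (hE j) hq hT
        (fun w hw => ih (j + 1) w (hw.trans (rR_lt_sR j).le)) hz
      refine h.trans (Real.exp_le_exp.2 ?_)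
      have e : (Real.log (Cst p) + j * Real.log 8) / p = a + j * b := by
        rw [ha, hb]; ring
      rw [e, pow_succ]
      push_cast
      nlinarith
  intro j z hz
  have hlim : Tendsto (fun k : ℕ => Real.exp (16 * a + 240 * b + 16 * b * j + (15/16) ^ k * T₀))
      atTop (𝓝 (Real.exp (16 * a + 240 * b + 16 * b * j))) := by
    have h1 : Tendsto (fun k : ℕ => ((15/16 : ℝ)) ^ k * T₀) atTop (𝓝 0) := by
      simpa using (tendsto_pow_atTop_nhds_zero_of_lt_one (by norm_num : (0:ℝ) ≤ 15/16)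
        (by norm_num)).mul_const T₀
    have h2 := h1.const_add (16 * a + 240 * b + 16 * b * j)
    rw [add_zero] at h2
    exact (Real.continuous_exp.tendsto _).comp h2
  exact ge_of_tendsto' hlim (fun k => hind k j z hz)

/-- **Rigidity.** -/
theorem not_weaklyInvertible (hp : 0 < p) (hL : ∀ j, 0 ≤ L j)
    (hΦ : DifferentiableOn ℂ Φ (ball 0 1)) (hn8 : ∀ j, (sR j / rR j) ^ n j ≤ 1/8)
    (hE : ∀ j, ∀ z : ℂ, ‖z‖ = rR j → 1/2 ≤ ((z / rR j) ^ n j).re → L j - 2 ≤ (Φ z).re)
    (hneg : ∀ j : ℕ, ∃ z : ℂ, ‖z‖ = rR j ∧ (Φ z).re ≤ -((j : ℝ) ^ 2) + 1) :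
    ¬ WeaklyInvertible p (symMeasure (nuM (cM p L))) (fun z => Complex.exp (Φ z)) := by
  rintro ⟨-, Q, hQ⟩
  obtain ⟨α, β, hα, hβ, hub⟩ := uniform_bound (n := n) hp hL hΦ hn8 hE
  -- lower bound for `|exp Φ|` at points of the circle `r_j`
  have hlow : ∀ j (z : ℂ), ‖z‖ = rR j → Real.exp (-(α + β * (j + 1) + 1)) ≤ ‖Complex.exp (Φ z)‖ := by
    intro j z hz
    -- circle of radius `r_{j+1}`
    set R := rR (j + 1) with hR
    have hR0 : 0 < R := rR_pos _
    have hR1 : R < 1 := rR_lt_one _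
    have hzR : ‖z‖ < R := by rw [hz]; exact rR_strictMono (Nat.lt_succ_self j)
    have hsph : closedBall (0:ℂ) R ⊆ ball 0 1 := closedBall_subset_ball hR1
    obtain ⟨Mf, hMf⟩ := (isCompact_closedBall (0:ℂ) R).exists_bound_of_continuousOn
      ((hΦ.continuousOn.mono hsph).cexp)
    set Γ : ℝ := Real.exp (α + β * ((j + 2 : ℕ) : ℝ)) * max Mf 0 + 1 with hΓ
    have hΓ1 : 1 ≤ Γ := by
      rw [hΓ]
      have : 0 ≤ Real.exp (α + β * ((j + 2 : ℕ) : ℝ)) * max Mf 0 := by positivity
      linarith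
    set K : ℝ := (R + ‖z‖) / (R - ‖z‖) with hK
    have hK0 : 0 < K := div_pos (by positivity) (by linarith)
    -- threshold
    set δ : ℝ := 1 / (4 * K) with hδ
    have hδ0 : 0 < δ := by positivity
    set G : ℝ := max (Γ ^ (1 - p)) (δ ^ (1 - p)) with hG
    have hG0 : 0 < G := lt_max_of_lt_left (by positivity)
    -- pick the polynomial
    have hc := cM_pos p L (j + 1)
    set ε : ℝ := (cM p L (j + 1) * (δ / G)) ^ (1 / p) with hε
    have hε0 : 0 < ε := by positivity
    have hev := (hQ.eventually (ge_mem_nhds (ENNReal.ofReal_pos.2 hε0))).and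
      (hQ.eventually (ge_mem_nhds (zero_lt_one)))
    obtain ⟨m, hm1, hm2⟩ := hev.exists
    set q := Q m with hq
    have hqb := hub q hm2
    set φ : ℂ → ℂ := fun w => q.eval w * Complex.exp (Φ w) - 1 with hφ
    have hφd : DifferentiableOn ℂ φ (ball 0 1) :=
      (q.differentiable.differentiableOn.mul hΦ.cexp).sub (differentiableOn_const _)
    have hφb : ∀ w ∈ closedBall (0:ℂ) R, ‖φ w‖ ≤ Γ := by
      intro w hw
      have hw' : ‖w‖ ≤ R := by simpa using hw
      have e1 : ‖q.eval w‖ ≤ Real.exp (α + β * ((j + 2 : ℕ) : ℝ)) :=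
        hqb (j + 2) w (hw'.trans (rR_lt_sR (j + 1)).le)
      have e2 : ‖Complex.exp (Φ w)‖ ≤ max Mf 0 := (hMf w hw).trans (le_max_left _ _)
      calc ‖φ w‖ ≤ ‖q.eval w * Complex.exp (Φ w)‖ + ‖(1:ℂ)‖ := norm_sub_le _ _
        _ ≤ Γ := by
          rw [norm_mul, norm_one, hΓ]
          have := mul_le_mul e1 e2 (norm_nonneg _) (Real.exp_pos _).le
          linarith
    have hpt : ∀ w ∈ closedBall (0:ℂ) R, ‖φ w‖ ≤ δ + G * ‖φ w‖ ^ p := by
      intro w hw
      rcases le_total ‖φ w‖ δ with h | h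
      · have : 0 ≤ G * ‖φ w‖ ^ p := by positivity
        linarith
      · have hφ0 : 0 < ‖φ w‖ := lt_of_lt_of_le hδ0 h
        have e1 : ‖φ w‖ = ‖φ w‖ ^ (1 - p) * ‖φ w‖ ^ p := by
          rw [← Real.rpow_add hφ0]; simp
        have e2 : ‖φ w‖ ^ (1 - p) ≤ G := by
          rcases le_total 0 (1 - p) with h1 | h1
          · exact (Real.rpow_le_rpow hφ0.le (hφb w hw) h1).trans (le_max_left _ _)
          · exact (Real.rpow_le_rpow_of_nonpos hδ0 h h1).trans (le_max_right _ _)
        have e3 : 0 ≤ ‖φ w‖ ^ p := by positivity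
        calc ‖φ w‖ = ‖φ w‖ ^ (1 - p) * ‖φ w‖ ^ p := e1
          _ ≤ G * ‖φ w‖ ^ p := mul_le_mul_of_nonneg_right e2 e3
          _ ≤ _ := by linarith
    -- integral bound
    have hint1 := le_eNorm hp (cM_pos p L) hφd.continuousOn (j + 1)
    have hint2 : cM p L (j + 1) * circleAverage (fun w => ‖φ w‖ ^ p) 0 R ≤
        cM p L (j + 1) * (δ / G) := by
      have h1 : ENNReal.ofReal (cM p L (j + 1) * circleAverage (fun w => ‖φ w‖ ^ p) 0 R) ≤
          ENNReal.ofReal (cM p L (j + 1) * (δ / G)) := by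
        refine hint1.trans ?_
        refine (ENNReal.rpow_le_rpow hm1 hp.le).trans ?_
        rw [ENNReal.ofReal_rpow_of_nonneg hε0.le hp.le, hε, ← Real.rpow_mul (by positivity),
          one_div, inv_mul_cancel₀ hp.ne', Real.rpow_one]
      exact (ENNReal.ofReal_le_ofReal_iff (by positivity)).1 h1
    have hint3 : circleAverage (fun w => ‖φ w‖ ^ p) 0 R ≤ δ / G :=
      le_of_mul_le_mul_left hint2 hc
    have hsph' : sphere (0:ℂ) R ⊆ ball 0 1 := sphere_subset_closedBall.trans hsph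
    have hφc : ContinuousOn φ (sphere 0 R) := hφd.continuousOn.mono hsph'
    have hci1 : CircleIntegrable (fun w => ‖φ w‖) 0 R := hφc.norm.circleIntegrable hR0.le
    have hci2 : CircleIntegrable (fun w => G * ‖φ w‖ ^ p) 0 R := by
      apply ContinuousOn.circleIntegrable hR0.le
      exact continuousOn_const.mul (hφc.norm.rpow_const (fun _ _ => Or.inr hp.le))
    have hci3 : CircleIntegrable (fun _ : ℂ => δ) 0 R :=
      continuousOn_const.circleIntegrable hR0.le
    have hav : circleAverage (fun w => ‖φ w‖) 0 R ≤ δ + δ := by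
      calc _ ≤ circleAverage (fun w => δ + G * ‖φ w‖ ^ p) 0 R := by
            apply circleAverage_mono hci1 (hci3.add hci2)
            intro w hw
            rw [abs_of_pos hR0] at hw
            exact hpt w (sphere_subset_closedBall hw)
        _ = δ + G * circleAverage (fun w => ‖φ w‖ ^ p) 0 R := by
            rw [circleAverage_fun_add hci3 hci2, circleAverage_const]
            congr 1
            rw [← smul_eq_mul, ← circleAverage_fun_smul]
            rfl
        _ ≤ δ + G * (δ / G) := by gcongr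
        _ = δ + δ := by rw [mul_div_cancel₀ _ hG0.ne']
    have hdc : DiffContOnCl ℂ φ (ball 0 R) := by
      apply DifferentiableOn.diffContOnCl
      rw [closure_ball _ hR0.ne']
      exact hφd.mono hsph
    have hφz : ‖φ z‖ ≤ 1/2 := by
      calc ‖φ z‖ ≤ K * circleAverage (fun w => ‖φ w‖) 0 R := norm_le_circleAverage hdc hzR
        _ ≤ K * (δ + δ) := by gcongr
        _ = 1/2 := by rw [hδ]; field_simp; norm_num
    -- conclusion
    have h1 : 1/2 ≤ ‖q.eval z * Complex.exp (Φ z)‖ := by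
      have h := norm_sub_norm_le (1:ℂ) (q.eval z * Complex.exp (Φ z))
      rw [norm_one, norm_sub_rev] at h
      have : ‖q.eval z * Complex.exp (Φ z) - 1‖ ≤ 1/2 := hφz
      linarith
    have h2 : ‖q.eval z‖ ≤ Real.exp (α + β * (j + 1)) := by
      have := hqb (j + 1) z (by rw [hz]; exact (rR_lt_sR j).le)
      push_cast at this
      exact this
    rw [norm_mul] at h1
    have h3 : 1/2 ≤ Real.exp (α + β * (j + 1)) * ‖Complex.exp (Φ z)‖ :=
      h1.trans (mul_le_mul_of_nonneg_right h2 (norm_nonneg _))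
    have h4 : Real.exp (-(α + β * (j + 1) + 1)) =
        Real.exp (-(α + β * (j + 1))) * Real.exp (-1) := by
      rw [← Real.exp_add]; congr 1; ring
    have h5 : Real.exp (-1) ≤ 1/2 := by
      rw [Real.exp_neg, inv_le_comm₀ (Real.exp_pos _) (by norm_num)]
      have := Real.add_one_le_exp (1:ℝ)
      norm_num
      linarith
    have h6 : Real.exp (-(α + β * (j + 1))) * Real.exp (α + β * (j + 1)) = 1 := by
      rw [← Real.exp_add]; simp
    have h7 := Real.exp_pos (-(α + β * (j + 1)))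
    rw [h4]
    calc Real.exp (-(α + β * (j + 1))) * Real.exp (-1)
        ≤ Real.exp (-(α + β * (j + 1))) * (1/2) := by gcongr
      _ ≤ Real.exp (-(α + β * (j + 1))) * (Real.exp (α + β * (j + 1)) * ‖Complex.exp (Φ z)‖) := by
          gcongr
      _ = ‖Complex.exp (Φ z)‖ := by rw [← mul_assoc, h6, one_mul]
  -- contradiction for large `j`
  obtain ⟨j, hj⟩ := exists_nat_gt (α + β + 3 + β)
  obtain ⟨z, hz, hz'⟩ := hneg j
  have h1 := hlow j z hz
  rw [Complex.norm_exp, Real.exp_le_exp] at h1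
  have h2 : (j : ℝ) ^ 2 ≤ α + β * (j + 1) + 2 := by linarith
  have hj1 : (1:ℝ) ≤ j := by
    have : (3:ℝ) ≤ α + β + 3 + β := by linarith
    linarith
  nlinarith

end

end Pool.Agent.Helper83_Frankfurt
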